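import Pool.Agent.Lib.MP_fd6009_an.AS.Spec

set_option autoImplicit false

open Filter Topology

namespace Pool.Agent.Lib.MPfd6009.AS

open Pool.Agent.SumCE

namespace BSEM

lemma normalCone_half (x : E1) : normalCone (halfSpace sndE) x = NC x := by
  ext a
  constructor
  · rintro ⟨hx, ha⟩
    have hx' : x.2 ≤ 0 := hx
    have h0 : ∀ (v : E0) (s : ℝ), s ≤ -x.2 → a (v, s) ≤ 0 := by
      intro v s hs
      have := ha (x + (v, s)) (by
        change x.2 + s ≤ 0
        linarith)
      simpa using this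
    have hfs : fs a = 0 := by
      ext v
      have h1 := h0 v 0 (by linarith)
      have h2 := h0 (-v) 0 (by linarith)
      have h3 : a (-v, (0 : ℝ)) = - a (v, 0) := by
        rw [← map_neg]; simp
      rw [h3] at h2
      have : a (v, (0 : ℝ)) = 0 := by linarith
      simpa [fs_apply] using this
    have h4 : ∀ s : ℝ, a ((0 : E0), s) = s * a (0, 1) := by
      intro s
      have : ((0 : E0), s) = s • ((0 : E0), (1 : ℝ)) := by simp
      rw [this, map_smul, smul_eq_mul]
    have h5 : 0 ≤ a (0, 1) := by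
      have := h0 0 (-1 - x.2 + x.2) (by linarith)
      rw [h4] at this
      linarith
    have h6 : a (0, 1) * x.2 = 0 := by
      have h7 := h0 0 (-x.2) le_rfl
      rw [h4] at h7
      have h8 : a (0, 1) * x.2 ≤ 0 := mul_nonpos_of_nonneg_of_nonpos h5 hx'
      linarith
    exact ⟨hx', hfs, h5, h6⟩
  · rintro ⟨hx, hfs, h5, h6⟩
    refine ⟨hx, fun y hy => ?_⟩
    have hy' : y.2 ≤ 0 := hy
    rw [dual_eq a (y - x), hfs]
    have h7 : a (0, 1) * y.2 ≤ 0 := mul_nonpos_of_nonneg_of_nonpos h5 hy'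
    have : (y - x).2 = y.2 - x.2 := rfl
    simp only [this, zero_apply]
    nlinarith

end BSEM

theorem specBSE : SpecBSE := by
  have hNC : (normalCone (halfSpace sndE) : E1 → Set (E1 →L[ℝ] ℝ)) = NC :=
    funext BSEM.normalCone_half
  refine ⟨Op (cu 0), fun x y a b ha hb => Op_cu_monotone 0 x y a b ha hb,
    fun U hU x hx a h => Op_local hU hx a h, ?_, ?_⟩
  · obtain ⟨y₁, hy₁⟩ := Op_cu_nonempty (g := 0) (τ := -1) le_rfl (by norm_num)
    refine ⟨(y₁, -1), hy₁, ?_⟩
    change (-1 : ℝ) < 0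
    norm_num
  · rw [hNC]
    obtain ⟨y₂, a₂, ha₂⟩ := Op_cu_nonempty (g := 0) (τ := 1) le_rfl (by norm_num)
    refine ⟨(y₂, 1), a₂, ?_, ?_⟩
    · rintro y _ ⟨b, hb, c, hc, rfl⟩
      have hy : y.2 < 0 := by
        rcases lt_or_eq_of_le hc.1 with h3 | h3
        · exact h3
        · exfalso
          have h4 := Op_cu_empty (g := 0) (x := y) (by simp [h3])
          rw [h4] at hb
          exact hb
      have hc0 := NC_of_neg hy hc
      subst hc0
      have h5 := Op_cu_monotone 0 (y₂, 1) y a₂ b ha₂ hb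
      simpa using h5
    · rintro ⟨b, _, c, hc, _⟩
      have := hc.1
      norm_num at this

end Pool.Agent.Lib.MPfd6009.AS
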