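import Pool.Agent.Lib.MP_fd6009_an.AS.Spec2

/-!
# ECO: the dual of a space containing `c₀` contains `ℓ¹`
-/

set_option autoImplicit false

open Filter Topology

namespace Pool.Agent.Lib.MPfd6009.AS

universe u

namespace ECOM

variable {X : Type u} [NormedAddCommGroup X] [NormedSpace ℝ X]

theorem linInd {x : ℕ → X} {c : ℝ} (hc : 0 < c)
    (hlow : ∀ (s : Finset ℕ) (t : ℕ → ℝ), ∀ j ∈ s, c * |t j| ≤ ‖∑ i ∈ s, t i • x i‖) :
    LinearIndependent ℝ x := by
  rw [linearIndependent_iff']
  intro s t h j hj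
  have h1 := hlow s t j hj
  rw [h, norm_zero] at h1
  have h2 : |t j| ≤ 0 := by
    by_contra h3
    push Not at h3
    have := mul_pos hc h3
    linarith
  exact abs_nonpos_iff.1 h2

end ECOM

theorem specECO : SpecECO.{u} := by
  classical
  intro X _ _ hX
  obtain ⟨x, c, C, hc, hlow, hupp⟩ := hX
  have hli := ECOM.linInd hc hlow
  have hcC : c ≤ C := by
    have h1 := hlow {0} (fun _ => 1) 0 (by simp)
    have h2 := hupp {0} (fun _ => 1) 1 (fun i _ => by simp) zero_le_one
    rw [abs_one, mul_one] at h1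
    rw [mul_one] at h2
    linarith
  have hC : 0 < C := lt_of_lt_of_le hc hcC
  obtain ⟨p, hp⟩ : ∃ p : Submodule ℝ X, p = Submodule.span ℝ (Set.range x) := ⟨_, rfl⟩
  have hfun : ∀ n, ∃ f : X →L[ℝ] ℝ, ‖f‖ ≤ 1 ∧ ∀ k, f (x k) = if n = k then c else 0 := by
    intro n
    let B := Module.Basis.span hli
    let φ : Submodule.span ℝ (Set.range x) →ₗ[ℝ] ℝ := c • B.coord n
    have hBx : ∀ k, ((B k : Submodule.span ℝ (Set.range x)) : X) = x k := fun k =>
      congrArg Subtype.val (Module.Basis.span_apply hli k)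
    have hbound : ∀ y : Submodule.span ℝ (Set.range x), ‖φ y‖ ≤ 1 * ‖y‖ := by
      intro y
      have h1 : (y : X) = ∑ i ∈ insert n (B.repr y).support, (B.repr y) i • x i := by
        have h2 := B.linearCombination_repr y
        rw [Finsupp.linearCombination_apply, Finsupp.sum] at h2
        have h3 : (y : X) = ∑ i ∈ (B.repr y).support, (B.repr y) i • x i := by
          conv_lhs => rw [← h2]
          rw [Submodule.coe_sum]
          exact Finset.sum_congr rfl fun i _ => by rw [Submodule.coe_smul, hBx]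
        rw [h3]
        refine Finset.sum_subset (Finset.subset_insert _ _) fun i _ hi => ?_
        rw [Finsupp.notMem_support_iff.1 hi, zero_smul]
      have h4 := hlow (insert n (B.repr y).support) (fun i => (B.repr y) i) n
        (Finset.mem_insert_self _ _)
      rw [← h1] at h4
      show ‖c • B.coord n y‖ ≤ 1 * ‖y‖
      rw [smul_eq_mul, norm_mul, Real.norm_of_nonneg hc.le, one_mul]
      exact h4
    let ψ : Submodule.span ℝ (Set.range x) →L[ℝ] ℝ := φ.mkContinuous 1 hbound
    obtain ⟨f, hf, hfn⟩ := exists_extension_norm_eq (Submodule.span ℝ (Set.range x)) ψ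
    refine ⟨f, ?_, ?_⟩
    · rw [hfn]
      exact φ.mkContinuous_norm_le zero_le_one hbound
    · intro k
      have h5 := hf (B k)
      rw [hBx] at h5
      rw [h5]
      show c • B.coord n (B k) = _
      rw [Module.Basis.coord_apply, Module.Basis.repr_self, Finsupp.single_apply, smul_eq_mul]
      by_cases h : n = k
      · rw [if_pos h, if_pos h.symm, mul_one]
      · rw [if_neg h, if_neg (Ne.symm h), mul_zero]
  choose f hf hfx using hfun
  refine ⟨f, c / C, by positivity, hf, fun s t => ?_⟩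
  obtain ⟨ε, hε⟩ : ∃ ε : ℕ → ℝ, ∀ i, ε i = if t i < 0 then -1 else 1 := ⟨_, fun _ => rfl⟩
  obtain ⟨y, hy⟩ : ∃ y : X, y = ∑ i ∈ s, ε i • x i := ⟨_, rfl⟩
  have hεt : ∀ i, ε i * t i = |t i| := by
    intro i
    rw [hε]
    split_ifs with h
    · rw [abs_of_neg h]
      ring
    · rw [abs_of_nonneg (not_lt.1 h)]
      ring
  have h1 : ‖y‖ ≤ C * 1 := by
    rw [hy]
    refine hupp s ε 1 (fun i _ => ?_) zero_le_one
    rw [hε]
    split_ifs <;> simp
  have h2 : (∑ i ∈ s, t i • f i) y = c * ∑ i ∈ s, |t i| := by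
    rw [hy, map_sum, Finset.mul_sum]
    refine Finset.sum_congr rfl fun k hk => ?_
    rw [map_smul, ContinuousLinearMap.sum_apply]
    have h3 : ∑ i ∈ s, (t i • f i) (x k) = t k * c := by
      rw [Finset.sum_eq_single_of_mem k hk]
      · rw [ContinuousLinearMap.smul_apply, hfx, if_pos rfl, smul_eq_mul]
      · intro i _ hik
        rw [ContinuousLinearMap.smul_apply, hfx, if_neg hik, smul_zero]
    rw [h3, smul_eq_mul, ← mul_assoc, hεt, mul_comm]
  have h5 : c * ∑ i ∈ s, |t i| ≤ ‖∑ i ∈ s, t i • f i‖ * C := by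
    rw [← h2]
    calc (∑ i ∈ s, t i • f i) y ≤ ‖(∑ i ∈ s, t i • f i) y‖ := le_abs_self _
      _ ≤ ‖∑ i ∈ s, t i • f i‖ * ‖y‖ := ContinuousLinearMap.le_opNorm _ _
      _ ≤ ‖∑ i ∈ s, t i • f i‖ * C := by
        rw [mul_one] at h1
        exact mul_le_mul_of_nonneg_left h1 (norm_nonneg _)
  rw [div_mul_eq_mul_div, div_le_iff₀ hC]
  exact h5

end Pool.Agent.Lib.MPfd6009.AS
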