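import Pool.Agent.Lib.MP_fd6009_an.AS.Spec2

set_option autoImplicit false

open Filter Topology

namespace Pool.Agent.Lib.MPfd6009.AS

universe u

namespace ELOM

variable {X : Type u} [NormedAddCommGroup X] [NormedSpace ℝ X]

/-- For bounded coefficients there are functionals with the prescribed values. -/
lemma exists_functional {x : ℕ → X} {c : ℝ} (hc : 0 < c)
    (hx : ∀ (s : Finset ℕ) (t : ℕ → ℝ), c * ∑ i ∈ s, |t i| ≤ ‖∑ i ∈ s, t i • x i‖)
    (r : ℕ → ℝ) (hr : ∀ k, |r k| ≤ 1) :
    ∃ g : X →L[ℝ] ℝ, ‖g‖ ≤ 1 ∧ ∀ k, g (x k) = c * r k := by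
  classical
  set L : (ℕ →₀ ℝ) →ₗ[ℝ] X := Finsupp.linearCombination ℝ x with hL
  have hlow : ∀ t : ℕ →₀ ℝ, c * ∑ i ∈ t.support, |t i| ≤ ‖L t‖ := by
    intro t
    have h := hx t.support (fun i => t i)
    rwa [hL, Finsupp.linearCombination_apply, Finsupp.sum]
  have hinj : Function.Injective L := by
    rw [← LinearMap.ker_eq_bot, LinearMap.ker_eq_bot']
    intro t ht
    have h := hlow t
    rw [ht, norm_zero] at h
    have h1 : ∑ i ∈ t.support, |t i| ≤ 0 := by
      by_contra hcon
      push Not at hcon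
      have := mul_pos hc hcon
      linarith
    ext i
    by_contra hi
    have h2 : |t i| ≤ ∑ i ∈ t.support, |t i| :=
      Finset.single_le_sum (f := fun i => |t i|) (fun _ _ => abs_nonneg _)
        (Finsupp.mem_support_iff.2 hi)
    have h3 : 0 < |t i| := abs_pos.2 hi
    linarith
  set e : (ℕ →₀ ℝ) ≃ₗ[ℝ] LinearMap.range L := LinearEquiv.ofInjective L hinj with he
  set ψ : LinearMap.range L →ₗ[ℝ] ℝ :=
    c • ((Finsupp.linearCombination ℝ r).comp e.symm.toLinearMap) with hψ
  have hbound : ∀ y : LinearMap.range L, ‖ψ y‖ ≤ 1 * ‖y‖ := by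
    intro y
    have h1 : L (e.symm y) = (y : X) := by
      have h := congrArg Subtype.val (e.apply_symm_apply y)
      rw [he, LinearEquiv.ofInjective_apply] at h
      exact h
    have h2 := hlow (e.symm y)
    rw [h1] at h2
    have h3 : ψ y = c * ∑ i ∈ (e.symm y).support, (e.symm y) i * r i := by
      rw [hψ, LinearMap.smul_apply, LinearMap.comp_apply, LinearEquiv.coe_coe,
        Finsupp.linearCombination_apply, Finsupp.sum, smul_eq_mul]
      simp only [smul_eq_mul]
    have h4 : |∑ i ∈ (e.symm y).support, (e.symm y) i * r i| ≤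
        ∑ i ∈ (e.symm y).support, |(e.symm y) i| := by
      refine (Finset.abs_sum_le_sum_abs _ _).trans (Finset.sum_le_sum fun i _ => ?_)
      rw [abs_mul]
      have := mul_le_mul_of_nonneg_left (hr i) (abs_nonneg ((e.symm y) i))
      linarith
    rw [h3, Real.norm_eq_abs, abs_mul, abs_of_pos hc, one_mul]
    exact (mul_le_mul_of_nonneg_left h4 hc.le).trans h2
  set Ψ : LinearMap.range L →L[ℝ] ℝ := ψ.mkContinuous 1 hbound with hΨ
  obtain ⟨g, hg1, hg2⟩ := exists_extension_norm_eq (LinearMap.range L) Ψ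
  refine ⟨g, ?_, fun k => ?_⟩
  · rw [hg2]
    exact LinearMap.mkContinuous_norm_le _ zero_le_one _
  · have h1 : ((e (Finsupp.single k 1) : LinearMap.range L) : X) = x k := by
      rw [he, LinearEquiv.ofInjective_apply, hL, Finsupp.linearCombination_single, one_smul]
    rw [← h1, hg1, hΨ, LinearMap.mkContinuous_apply, hψ, LinearMap.smul_apply,
      LinearMap.comp_apply, LinearEquiv.coe_coe, LinearEquiv.symm_apply_apply,
      Finsupp.linearCombination_single, smul_eq_mul, smul_eq_mul, one_mul]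

end ELOM

theorem specELO : SpecELO.{u} := by
  classical
  intro X _ _ hX
  obtain ⟨x, c, hc, hx1, hx⟩ := hX
  obtain ⟨S, hS⟩ := exists_surjective_nat (Finset ℕ)
  have h := fun n : ℕ => ELOM.exists_functional hc hx (fun k => if n ∈ S k then -1 else 1)
    (fun k => by split_ifs <;> simp)
  choose f hf1 hf2 using h
  refine ⟨f, c, hc, hf1, fun s t => ?_⟩
  obtain ⟨k, hk⟩ := hS (s.filter (fun i => t i < 0))
  have h1 : (∑ i ∈ s, t i • f i) (x k) = c * ∑ i ∈ s, |t i| := by
    rw [ContinuousLinearMap.sum_apply, Finset.mul_sum]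
    refine Finset.sum_congr rfl fun i hi => ?_
    rw [ContinuousLinearMap.smul_apply, hf2, smul_eq_mul]
    by_cases hti : t i < 0
    · rw [if_pos (by rw [hk, Finset.mem_filter]; exact ⟨hi, hti⟩), abs_of_neg hti]
      ring
    · rw [if_neg (by rw [hk, Finset.mem_filter]; exact fun h => hti h.2),
        abs_of_nonneg (not_lt.1 hti)]
      ring
  have h2 := (∑ i ∈ s, t i • f i).le_opNorm (x k)
  rw [h1, Real.norm_eq_abs] at h2
  have h3 : ‖∑ i ∈ s, t i • f i‖ * ‖x k‖ ≤ ‖∑ i ∈ s, t i • f i‖ :=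
    mul_le_of_le_one_right (norm_nonneg _) (hx1 k)
  exact (le_abs_self _).trans (h2.trans h3)

end Pool.Agent.Lib.MPfd6009.AS
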