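import Pool.Agent.Lib.MP_fd6009_an.AS.Spec

set_option autoImplicit false

open Filter Topology

namespace Pool.Agent.Lib.MPfd6009.AS

universe u

theorem specFIN (hLFT : SpecLFT.{u}) (hHLF : SpecHLF.{u}) (hSUM : SpecSUM.{u}) (hBSE : SpecBSE)
    (hSUR : SpecSUR.{u}) (hPIM : SpecPIM.{u}) (hNRM : SpecNRM.{u}) (hWSQ : SpecWSQ.{u}) :
    SpecFIN.{u} := by
  intro X _ _ _ hX
  obtain ⟨f, c, hc, hf1, hf2⟩ := hX
  obtain ⟨Y, hYc, hYs, hY⟩ := hNRM X f c hc hf2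
  have hnorm : ∀ n, ‖(f n).comp Y.subtypeL‖ ≤ 1 := by
    intro n
    refine (ContinuousLinearMap.opNorm_comp_le _ _).trans ?_
    have h1 : ‖Y.subtypeL‖ ≤ 1 := Y.norm_subtypeL_le
    have h2 : 0 ≤ ‖Y.subtypeL‖ := ContinuousLinearMap.opNorm_nonneg _
    calc ‖f n‖ * ‖Y.subtypeL‖ ≤ 1 * 1 := mul_le_mul (hf1 n) h1 h2 zero_le_one
      _ = 1 := one_mul 1
  obtain ⟨g, hg1, hg2, hg3⟩ := hWSQ Y (fun n => (f n).comp Y.subtypeL) (c / 2) (half_pos hc)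
    hnorm hY
  obtain ⟨π, hπ⟩ := hPIM Y g (c / 2) (half_pos hc) hg1 hg2 hg3
  have hcomp : CompleteSpace Y := hYc.completeSpace_coe
  obtain ⟨C, hC⟩ := hSUR Y E1 π (c / 2) (half_pos hc) hπ
  obtain ⟨A₀, hmon, hloc, ⟨x₀, hx₀, hx₀'⟩, hrel⟩ := hBSE
  obtain ⟨k, hk, -⟩ := exists_extension_norm_eq Y (sndE.comp π)
  have hk' : ∀ y : Y, k y = sndE (π y) := fun y => hk y
  obtain ⟨hL1, hL2⟩ := hLFT X E1 Y π C A₀ hYc hC hmon hloc ⟨x₀, hx₀⟩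
  obtain ⟨hN1, hN2, hN3, -⟩ := hHLF X k
  obtain ⟨hS1, hS2⟩ := hSUM X E1 Y π A₀ sndE k
    (fun z => (hC z).imp fun y hy => hy.1) hk' hmon hrel
  obtain ⟨y, hy, -⟩ := hC x₀
  have hky : k y < 0 := by rw [hk' y, hy]; exact hx₀'
  refine ⟨lift Y π A₀, k, ?_, hL2, hN1, hN2, ?_, hS1, hS2⟩
  · rintro rfl
    simp at hky
  · exact ⟨y, hL1 x₀ hx₀ y hy, hN3 hky⟩

end Pool.Agent.Lib.MPfd6009.AS
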