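import Pool.Agent.Lib.MP_fd6009_an.AS.Spec

/-!
# Module HLF: the normal cone operator of a half space
-/

set_option autoImplicit false

open Filter Topology
open scoped Pointwise

namespace Pool.Agent.Lib.MPfd6009.AS.HLFM

universe u

variable {X : Type u} [NormedAddCommGroup X] [NormedSpace ℝ X] (h : X →L[ℝ] ℝ)

theorem mem_iff (x : X) (a : X →L[ℝ] ℝ) : a ∈ normalCone (halfSpace h) x ↔
    (h x ≤ 0 ∧ ∃ s : ℝ, 0 ≤ s ∧ s * h x = 0 ∧ a = s • h) := by
  constructor
  · rintro ⟨hx, ha⟩
    have hx0 : h x ≤ 0 := hx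
    refine ⟨hx0, ?_⟩
    have hker : ∀ v : X, h v = 0 → a v = 0 := by
      intro v hv
      have h1 := ha (x + v) (by
        change h (x + v) ≤ 0
        rw [map_add, hv, add_zero]
        exact hx0)
      have h2 := ha (x - v) (by
        change h (x - v) ≤ 0
        rw [map_sub, hv, sub_zero]
        exact hx0)
      rw [add_sub_cancel_left] at h1
      rw [show x - v - x = -v by abel, map_neg] at h2
      linarith
    by_cases hh : ∀ v, h v = 0
    · refine ⟨0, le_rfl, by ring, ?_⟩
      ext v
      rw [hker v (hh v), zero_smul]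
      rfl
    · push Not at hh
      obtain ⟨w, hw⟩ := hh
      set v₀ : X := (h w)⁻¹ • w with hv₀
      have hv1 : h v₀ = 1 := by
        rw [hv₀, map_smul, smul_eq_mul]
        exact inv_mul_cancel₀ hw
      have hav : ∀ v : X, a v = a v₀ * h v := by
        intro v
        have h1 : h (v - h v • v₀) = 0 := by
          rw [map_sub, map_smul, hv1, smul_eq_mul, mul_one, sub_self]
        have h2 := hker _ h1
        rw [map_sub, map_smul, smul_eq_mul, sub_eq_zero] at h2
        rw [h2, mul_comm]
      have hs : 0 ≤ a v₀ := by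
        have h1 := ha (x - v₀) (by
          change h (x - v₀) ≤ 0
          rw [map_sub, hv1]
          linarith)
        rw [show x - v₀ - x = -v₀ by abel, map_neg] at h1
        linarith
      refine ⟨a v₀, hs, ?_, ?_⟩
      · have h1 := ha (x - h x • v₀) (by
          change h (x - h x • v₀) ≤ 0
          rw [map_sub, map_smul, hv1, smul_eq_mul, mul_one, sub_self])
        rw [show x - h x • v₀ - x = -(h x • v₀) by abel, map_neg, map_smul, smul_eq_mul] at h1
        have h2 : h x * a v₀ ≤ 0 := mul_nonpos_of_nonpos_of_nonneg hx0 hs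
        linarith
      · ext v
        rw [hav v]
        rfl
  · rintro ⟨hx, s, hs, hsx, rfl⟩
    refine ⟨hx, ?_⟩
    intro y hy
    have hy0 : h y ≤ 0 := hy
    change s * h (y - x) ≤ 0
    rw [map_sub, mul_sub, hsx, sub_zero]
    exact mul_nonpos_of_nonneg_of_nonpos hs hy0

theorem mono : IsMonotone (normalCone (halfSpace h)) := by
  intro x y a b ha hb
  have h1 := ha.2 y hb.1
  have h2 := hb.2 x ha.1
  have h3 : a (x - y) = - a (y - x) := by rw [← map_neg, neg_sub]
  change 0 ≤ a (x - y) - b (x - y)
  linarith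

theorem maxi : IsMaximal (normalCone (halfSpace h)) := by
  refine ⟨mono h, ?_⟩
  intro A' hA' hsub x a ha
  have key : ∀ (y : X) (b : X →L[ℝ] ℝ), b ∈ normalCone (halfSpace h) y → 0 ≤ (a - b) (x - y) :=
    fun y b hb => hA' x y a b ha (hsub y hb)
  have hx : h x ≤ 0 := by
    by_contra hcon
    push Not at hcon
    have h1 : ∀ s : ℝ, 0 ≤ s → s * h x ≤ a x := by
      intro s hs
      have h2 := key 0 (s • h) ((mem_iff h 0 (s • h)).mpr
        ⟨by rw [map_zero], s, hs, by rw [map_zero, mul_zero], rfl⟩)
      rw [sub_zero] at h2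
      change 0 ≤ a x - s * h x at h2
      linarith
    have h3 := h1 ((|a x| + 1) / h x) (by positivity)
    rw [div_mul_cancel₀ _ hcon.ne'] at h3
    linarith [le_abs_self (a x)]
  refine ⟨hx, ?_⟩
  intro y hy
  have h1 := key y 0 ⟨hy, fun z _ => by simp⟩
  rw [sub_zero] at h1
  have h3 : a (x - y) = - a (y - x) := by rw [← map_neg, neg_sub]
  linarith

end Pool.Agent.Lib.MPfd6009.AS.HLFM

namespace Pool.Agent.Lib.MPfd6009.AS

universe u

theorem specHLF : SpecHLF.{u} := by
  intro X _ _ h
  refine ⟨HLFM.maxi h, ?_, ?_, HLFM.mem_iff h⟩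
  · ext x
    constructor
    · rintro ⟨a, ha⟩
      exact ha.1
    · intro hx
      exact ⟨0, hx, fun z _ => by simp⟩
  · apply interior_maximal
    · intro x hx
      have hx' : h x < 0 := hx
      exact hx'.le
    · exact isOpen_lt h.continuous continuous_const

end Pool.Agent.Lib.MPfd6009.AS
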