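import Pool.Agent.Lib.MP_fd6009_an.AS.Spec

/-!
# Module LFT: the lifted operator is of type (FPV)
-/

set_option autoImplicit false

open Filter Topology
open scoped Pointwise

namespace Pool.Agent.Lib.MPfd6009.AS

universe u

namespace LFTM

variable {X : Type u} [NormedAddCommGroup X] [NormedSpace ℝ X] {Z : Type} [NormedAddCommGroup Z]
  [NormedSpace ℝ Z] {Y : Submodule ℝ X} {π : Y →L[ℝ] Z} {C : ℝ} {A : Z → Set (Z →L[ℝ] ℝ)}

lemma exists_ext (Y : Submodule ℝ X) (π : Y →L[ℝ] Z) (c : Z →L[ℝ] ℝ) :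
    ∃ b : X →L[ℝ] ℝ, ∀ y : Y, b y = c (π y) := by
  obtain ⟨b, hb, -⟩ := exists_extension_norm_eq Y (c.comp π)
  exact ⟨b, fun y => by simpa using hb y⟩

lemma mono (hA : IsMonotone A) : IsMonotone (lift Y π A) := by
  rintro x y a b ⟨hx, c, hc, hac⟩ ⟨hy, d, hd, hbd⟩
  have h := hA (π ⟨x, hx⟩) (π ⟨y, hy⟩) c d hc hd
  have h1 := hac (⟨x, hx⟩ - ⟨y, hy⟩)
  have h2 := hbd (⟨x, hx⟩ - ⟨y, hy⟩)
  rw [map_sub] at h1 h2
  have h3 : (((⟨x, hx⟩ - ⟨y, hy⟩ : Y)) : X) = x - y := rfl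
  rw [h3] at h1 h2
  rw [sub_apply, h1, h2]
  rw [sub_apply] at h
  exact h

lemma dom_lift (z : Z) (hz : z ∈ dom A) (y : Y) (hy : π y = z) : (y : X) ∈ dom (lift Y π A) := by
  obtain ⟨c, hc⟩ := hz
  obtain ⟨b, hb⟩ := exists_ext Y π c
  exact ⟨b, y.2, c, by
    have : (⟨(y : X), y.2⟩ : Y) = y := rfl
    rw [this, hy]; exact hc, hb⟩

lemma exists_sep (hY : IsClosed (Y : Set X)) {x : X} (hx : x ∉ Y) :
    ∃ f : X →L[ℝ] ℝ, (∀ y ∈ Y, f y = 0) ∧ f x = 1 := by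
  obtain ⟨f, v, h1, h2⟩ := geometric_hahn_banach_point_closed (Submodule.convex Y) hY
    (show x ∉ (Y : Set X) from hx)
  have h0 : v < 0 := by
    have := h2 0 Y.zero_mem
    simpa using this
  have hf : ∀ y ∈ Y, f y = 0 := by
    intro y hy
    by_contra hne
    have h3 := h2 ((v / f y) • y) (Y.smul_mem _ hy)
    rw [map_smul, smul_eq_mul, div_mul_cancel₀ _ hne] at h3
    exact lt_irrefl _ h3
  have hx0 : f x ≠ 0 := by
    intro h
    rw [h] at h1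
    linarith
  refine ⟨(f x)⁻¹ • f, fun y hy => ?_, ?_⟩
  · simp [hf y hy]
  · simp [hx0]

/-- Step (1). -/
lemma mem_Y (hY : IsClosed (Y : Set X)) {U : Set X} {x : X} {a : X →L[ℝ] ℝ}
    (hne : (U ∩ dom (lift Y π A)).Nonempty)
    (h : ∀ y ∈ U, ∀ b ∈ lift Y π A y, 0 ≤ (a - b) (x - y)) : x ∈ Y := by
  by_contra hx
  obtain ⟨f, hf, hfx⟩ := exists_sep hY hx
  obtain ⟨y₀, hy₀, a₀, hyY, c, hc, hac⟩ := hne
  have key : ∀ t : ℝ, 0 ≤ (a - a₀) (x - y₀) - t := by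
    intro t
    have h1 := h y₀ hy₀ (a₀ + t • f) ⟨hyY, c, hc, fun y => by
      simp [hac y, hf y y.2]⟩
    have h2 : (a - (a₀ + t • f)) (x - y₀) = (a - a₀) (x - y₀) - t := by
      simp only [sub_apply, add_apply,
        smul_apply, map_sub, smul_eq_mul, hf y₀ hyY, hfx]
      ring
    rw [h2] at h1
    exact h1
  have := key ((a - a₀) (x - y₀) + 1)
  linarith

/-- Step (2). -/
lemma ker_zero (hC : ∀ z : Z, ∃ y : Y, π y = z ∧ ‖y‖ ≤ C * ‖z‖) (hA : LocMax A)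
    {U : Set X} (hU : IsOpen U) {x : Y} (hxU : (x : X) ∈ U) {a : X →L[ℝ] ℝ}
    (h : ∀ y ∈ U, ∀ b ∈ lift Y π A y, 0 ≤ (a - b) (x - y)) (k : Y) (hk : π k = 0) :
    a k = 0 := by
  by_contra hak
  -- normalise
  obtain ⟨k', hk', hak'⟩ : ∃ k' : Y, π k' = 0 ∧ a k' = 1 := by
    refine ⟨(a k)⁻¹ • k, by simp [hk], ?_⟩
    simp [hak]
  obtain ⟨r, hr, hball⟩ := Metric.isOpen_iff.1 hU x hxU
  set s : ℝ := r / (2 * (‖k'‖ + 1)) with hs
  have hk1 : 0 < ‖k'‖ + 1 := by positivity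
  have hs0 : 0 < s := by positivity
  have hsk : s * ‖k'‖ ≤ r / 2 := by
    have h1 : s * (‖k'‖ + 1) = r / 2 := by
      rw [hs]; field_simp
    nlinarith [norm_nonneg k']
  -- delta
  obtain ⟨δ, hδ, hδ1, hδ2⟩ : ∃ δ : ℝ, 0 < δ ∧ |C| * δ < r / 2 ∧ ‖a‖ * (|C| * δ) ≤ s / 2 := by
    have hC0 : 0 ≤ |C| := abs_nonneg C
    have ha0 : 0 ≤ ‖a‖ := norm_nonneg a
    refine ⟨min (r / (4 * (|C| + 1))) (s / (2 * (‖a‖ + 1) * (|C| + 1))), by positivity, ?_, ?_⟩
    · have h1 : min (r / (4 * (|C| + 1))) (s / (2 * (‖a‖ + 1) * (|C| + 1))) ≤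
          r / (4 * (|C| + 1)) := min_le_left _ _
      have h2 : (|C| + 1) * (r / (4 * (|C| + 1))) = r / 4 := by field_simp
      have h3 : 0 < r / (4 * (|C| + 1)) := by positivity
      calc |C| * min (r / (4 * (|C| + 1))) (s / (2 * (‖a‖ + 1) * (|C| + 1)))
          ≤ |C| * (r / (4 * (|C| + 1))) := mul_le_mul_of_nonneg_left h1 hC0
        _ ≤ (|C| + 1) * (r / (4 * (|C| + 1))) := by nlinarith
        _ = r / 4 := h2
        _ < r / 2 := by linarith
    · have h1 : min (r / (4 * (|C| + 1))) (s / (2 * (‖a‖ + 1) * (|C| + 1))) ≤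
          s / (2 * (‖a‖ + 1) * (|C| + 1)) := min_le_right _ _
      have h3 : 0 < s / (2 * (‖a‖ + 1) * (|C| + 1)) := by positivity
      have h2 : (‖a‖ + 1) * ((|C| + 1) * (s / (2 * (‖a‖ + 1) * (|C| + 1)))) = s / 2 := by
        field_simp
      calc ‖a‖ * (|C| * min (r / (4 * (|C| + 1))) (s / (2 * (‖a‖ + 1) * (|C| + 1))))
          ≤ ‖a‖ * (|C| * (s / (2 * (‖a‖ + 1) * (|C| + 1)))) := by gcongr
        _ ≤ (‖a‖ + 1) * ((|C| + 1) * (s / (2 * (‖a‖ + 1) * (|C| + 1)))) := by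
            gcongr <;> linarith
        _ = s / 2 := h2
  -- the main estimate
  have main : ∀ z ∈ Metric.ball (π x) δ, ∀ c ∈ A z, s / 2 ≤ c (z - π x) := by
    intro z hz c hc
    obtain ⟨w, hw, hwn⟩ := hC (z - π x)
    obtain ⟨b, hb⟩ := exists_ext Y π c
    have hzn : ‖z - π x‖ < δ := by simpa [dist_eq_norm] using hz
    have hwC : ‖w‖ ≤ |C| * δ := by
      calc ‖w‖ ≤ C * ‖z - π x‖ := hwn
        _ ≤ |C| * ‖z - π x‖ := by gcongr; exact le_abs_self C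
        _ ≤ |C| * δ := by gcongr
    have hmem : ((x + w + s • k' : Y) : X) ∈ U := by
      apply hball
      rw [Metric.mem_ball, dist_eq_norm]
      have h1 : ((x + w + s • k' : Y) : X) - (x : X) = ((w + s • k' : Y) : X) := by
        push_cast
        abel
      rw [h1]
      calc ‖((w + s • k' : Y) : X)‖ = ‖w + s • k'‖ := rfl
        _ ≤ ‖w‖ + ‖s • k'‖ := norm_add_le _ _
        _ = ‖w‖ + s * ‖k'‖ := by rw [norm_smul, Real.norm_eq_abs, abs_of_pos hs0]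
        _ < r := by linarith
    have hπ : π (x + w + s • k') = z := by
      rw [map_add, map_add, map_smul, hk', hw]
      simp
    have h1 := h _ hmem b ⟨(x + w + s • k' : Y).2, c, by
      have : (⟨((x + w + s • k' : Y) : X), (x + w + s • k' : Y).2⟩ : Y) = x + w + s • k' := rfl
      rw [this, hπ]; exact hc, hb⟩
    have h2 : (x : X) - ((x + w + s • k' : Y) : X) = -((w : X) + s • (k' : X)) := by
      push_cast
      abel
    have h3 : b ((w : X) + s • (k' : X)) = c (z - π x) := by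
      have := hb (w + s • k')
      rw [map_add, map_smul, hk', hw] at this
      simpa using this
    have h4 : a ((w : X) + s • (k' : X)) = a w + s := by
      rw [map_add, map_smul, hak']; simp
    rw [h2, sub_apply, map_neg, map_neg, h3, h4] at h1
    have h5 : |a w| ≤ s / 2 := by
      calc |a w| = ‖a w‖ := (Real.norm_eq_abs _).symm
        _ ≤ ‖a‖ * ‖(w : X)‖ := a.le_opNorm _
        _ ≤ ‖a‖ * (|C| * δ) := by
            gcongr
            exact hwC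
        _ ≤ s / 2 := hδ2
    have h6 := (abs_le.1 h5).1
    linarith
  have hmem0 : (0 : Z →L[ℝ] ℝ) ∈ A (π x) := by
    apply hA (Metric.ball (π x) δ) Metric.isOpen_ball (π x) (Metric.mem_ball_self hδ)
    intro z hz c hc
    have h1 := main z hz c hc
    have h2 : c (π x - z) = - c (z - π x) := by
      rw [← map_neg, neg_sub]
    rw [sub_apply, h2]
    simp only [zero_apply]
    linarith
  have h7 := main (π x) (Metric.mem_ball_self hδ) 0 hmem0
  simp only [zero_apply] at h7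
  linarith

/-- Step (3). -/
lemma exists_factor (hC : ∀ z : Z, ∃ y : Y, π y = z ∧ ‖y‖ ≤ C * ‖z‖) (a : X →L[ℝ] ℝ)
    (h : ∀ k : Y, π k = 0 → a k = 0) : ∃ ζ : Z →L[ℝ] ℝ, ∀ y : Y, a y = ζ (π y) := by
  classical
  choose g hg hgn using hC
  have hz : ∀ y y' : Y, π y = π y' → a y = a y' := by
    intro y y' hyy
    have := h (y - y') (by rw [map_sub, hyy, sub_self])
    have h2 : a (y : X) - a (y' : X) = 0 := by
      rw [← map_sub]; simpa using this
    linarith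
  let L : Z →ₗ[ℝ] ℝ :=
    { toFun := fun z => a (g z)
      map_add' := by
        intro z w
        have h1 : a ((g (z + w) : Y) : X) = a ((g z + g w : Y) : X) :=
          hz _ _ (by rw [hg, map_add, hg, hg])
        rw [h1]
        simp
      map_smul' := by
        intro t z
        have h1 : a ((g (t • z) : Y) : X) = a ((t • g z : Y) : X) :=
          hz _ _ (by rw [hg, map_smul, hg])
        rw [h1]
        simp }
  refine ⟨L.mkContinuous (‖a‖ * |C|) ?_, ?_⟩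
  · intro z
    calc ‖a (g z)‖ ≤ ‖a‖ * ‖((g z : Y) : X)‖ := a.le_opNorm _
      _ ≤ ‖a‖ * (|C| * ‖z‖) := by
          gcongr
          calc ‖((g z : Y) : X)‖ = ‖g z‖ := rfl
            _ ≤ C * ‖z‖ := hgn z
            _ ≤ |C| * ‖z‖ := by gcongr; exact le_abs_self C
      _ = ‖a‖ * |C| * ‖z‖ := by ring
  · intro y
    change a y = a (g (π y))
    exact hz _ _ (by rw [hg])

lemma isOpen_img (hC : ∀ z : Z, ∃ y : Y, π y = z ∧ ‖y‖ ≤ C * ‖z‖) {U : Set X} (hU : IsOpen U) :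
    IsOpen {z : Z | ∃ y : Y, (y : X) ∈ U ∧ π y = z} := by
  rw [Metric.isOpen_iff]
  rintro z ⟨y, hy, hyz⟩
  obtain ⟨ρ, hρ, hball⟩ := Metric.isOpen_iff.1 hU y hy
  have hC0 : 0 ≤ |C| := abs_nonneg C
  refine ⟨ρ / (|C| + 1), by positivity, ?_⟩
  intro z' hz'
  obtain ⟨w, hw, hwn⟩ := hC (z' - z)
  have hzn : ‖z' - z‖ < ρ / (|C| + 1) := by simpa [dist_eq_norm] using hz'
  have hw1 : ‖w‖ < ρ := by
    calc ‖w‖ ≤ C * ‖z' - z‖ := hwn
      _ ≤ |C| * ‖z' - z‖ := by gcongr; exact le_abs_self C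
      _ ≤ (|C| + 1) * ‖z' - z‖ := by
          have := norm_nonneg (z' - z)
          nlinarith
      _ < (|C| + 1) * (ρ / (|C| + 1)) := by
          apply mul_lt_mul_of_pos_left hzn
          positivity
      _ = ρ := by field_simp
  refine ⟨y + w, hball ?_, ?_⟩
  · rw [Metric.mem_ball, dist_eq_norm]
    have h1 : ((y + w : Y) : X) - (y : X) = (w : X) := by
      push_cast
      abel
    rw [h1]
    exact hw1
  · rw [map_add, hyz, hw]
    abel

/-- Steps (1) to (4). -/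
lemma key (hY : IsClosed (Y : Set X)) (hC : ∀ z : Z, ∃ y : Y, π y = z ∧ ‖y‖ ≤ C * ‖z‖)
    (hA : LocMax A) {U : Set X} (hU : IsOpen U) (hne : (U ∩ dom (lift Y π A)).Nonempty)
    {x : X} (hxU : x ∈ U) {a : X →L[ℝ] ℝ}
    (h : ∀ y ∈ U, ∀ b ∈ lift Y π A y, 0 ≤ (a - b) (x - y)) : a ∈ lift Y π A x := by
  have hxY : x ∈ Y := mem_Y hY hne h
  have hker : ∀ k : Y, π k = 0 → a k = 0 :=
    fun k hk => ker_zero (x := ⟨x, hxY⟩) hC hA hU hxU h k hk
  obtain ⟨ζ, hζ⟩ := exists_factor hC a hker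
  refine ⟨hxY, ζ, ?_, hζ⟩
  refine hA {z : Z | ∃ y : Y, (y : X) ∈ U ∧ π y = z} (isOpen_img hC hU) _
    ⟨⟨x, hxY⟩, hxU, rfl⟩ ζ ?_
  rintro z ⟨y, hyU, rfl⟩ c hc
  obtain ⟨b, hb⟩ := exists_ext Y π c
  have h1 := h y hyU b ⟨y.2, c, hc, hb⟩
  have h2 := hζ (⟨x, hxY⟩ - y)
  have h3 := hb (⟨x, hxY⟩ - y)
  have h4 : (((⟨x, hxY⟩ - y : Y)) : X) = x - y := rfl
  rw [h4, map_sub π] at h2 h3
  rw [sub_apply, h2, h3] at h1
  rw [sub_apply]
  exact h1

end LFTM

theorem specLFT : SpecLFT.{u} := by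
  intro X _ _ Z _ _ Y π C A hY hC hmono hA hdom
  refine ⟨LFTM.dom_lift, ⟨LFTM.mono hmono, ?_⟩, ?_⟩
  · intro A' hA' hext x a ha
    obtain ⟨z, hz⟩ := hdom
    obtain ⟨y, hy, -⟩ := hC z
    refine LFTM.key hY hC hA isOpen_univ ⟨(y : X), Set.mem_univ _,
      LFTM.dom_lift z hz y hy⟩ (Set.mem_univ x) ?_
    intro y' _ b hb
    exact hA' x y' a b ha (hext y' hb)
  · intro U hU hne x hx a h
    exact LFTM.key hY hC hA hU hne hx h

end Pool.Agent.Lib.MPfd6009.AS
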