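import Pool.Agent.Lib.MP_fd6009_an.AS.Spec

/-!
# Module NRM (MP_fd6009_an): a separable subspace which norms the functionals
-/

set_option autoImplicit false

open Filter Topology
open scoped Pointwise

namespace Pool.Agent.Lib.MPfd6009.AS

universe u

namespace NRMM

lemma exists_norming {X : Type u} [NormedAddCommGroup X] [NormedSpace ℝ X] (F : X →L[ℝ] ℝ) :
    ∃ x : X, ‖x‖ ≤ 1 ∧ ‖F‖ ≤ 2 * |F x| := by
  rcases eq_or_lt_of_le (norm_nonneg F) with h | h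
  · exact ⟨0, by simp, by simp [← h]⟩
  · obtain ⟨x, hx, hF⟩ := F.exists_lt_apply_of_lt_opNorm (half_lt_self h)
    refine ⟨x, hx.le, ?_⟩
    rw [Real.norm_eq_abs] at hF
    linarith

/-- a rational combination -/
noncomputable def cmb {E : Type u} [AddCommGroup E] [Module ℝ E] (g : ℕ → E) (q : ℕ →₀ ℚ) : E :=
  q.sum fun i r => (r : ℝ) • g i

lemma cmb_eq {E : Type u} [AddCommGroup E] [Module ℝ E] (g : ℕ → E) (s : Finset ℕ) (q : ℕ → ℚ) :
    cmb g (Finsupp.indicator s fun i _ => q i) = ∑ i ∈ s, (q i : ℝ) • g i := by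
  unfold cmb
  rw [Finsupp.sum_of_support_subset _ (Finsupp.support_indicator_subset s _)]
  · apply Finset.sum_congr rfl
    intro i hi
    rw [Finsupp.indicator_of_mem hi]
  · intro i _
    simp

lemma pert {E : Type u} [SeminormedAddCommGroup E] [NormedSpace ℝ E] (g : ℕ → E)
    (s : Finset ℕ) (t q : ℕ → ℝ) (δ : ℝ) (h : ∀ i, |t i - q i| ≤ δ) :
    ‖∑ i ∈ s, q i • g i‖ ≤ ‖∑ i ∈ s, t i • g i‖ + δ * ∑ i ∈ s, ‖g i‖ := by
  have e1 : ∑ i ∈ s, q i • g i = ∑ i ∈ s, t i • g i - ∑ i ∈ s, (t i - q i) • g i := by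
    rw [← Finset.sum_sub_distrib]
    apply Finset.sum_congr rfl
    intro i _
    rw [sub_smul]
    abel
  rw [e1]
  refine le_trans (norm_sub_le _ _) ?_
  gcongr
  rw [Finset.mul_sum]
  refine le_trans (norm_sum_le _ _) ?_
  apply Finset.sum_le_sum
  intro i _
  rw [norm_smul, Real.norm_eq_abs]
  gcongr
  exact h i

end NRMM

open NRMM in
/-- a separable closed subspace which norms the functionals -/
theorem specNRM : SpecNRM.{u} := by
  classical
  intro X _ _ f c hc hf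
  choose x hx1 hx2 using fun q : ℕ →₀ ℚ => exists_norming (cmb f q)
  set S : Submodule ℝ X := Submodule.span ℝ (Set.range x) with hS
  set Y : Submodule ℝ X := S.topologicalClosure with hY
  have hmem : ∀ q, x q ∈ Y := fun q =>
    S.le_topologicalClosure (Submodule.subset_span ⟨q, rfl⟩)
  have hsep : TopologicalSpace.IsSeparable (Y : Set X) := by
    have h1 : TopologicalSpace.IsSeparable (Set.range x) :=
      (Set.countable_range x).isSeparable
    have h2 : TopologicalSpace.IsSeparable (S : Set X) := h1.span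
    have h3 : (Y : Set X) = closure (S : Set X) := S.topologicalClosure_coe
    rw [h3]
    exact h2.closure
  refine ⟨Y, S.isClosed_topologicalClosure, hsep.separableSpace, ?_⟩
  -- the restrictions
  set g : ℕ → Y →L[ℝ] ℝ := fun i => (f i).comp Y.subtypeL with hg
  have hrat : ∀ (s : Finset ℕ) (q : ℕ → ℚ),
      c / 2 * ∑ i ∈ s, |(q i : ℝ)| ≤ ‖∑ i ∈ s, (q i : ℝ) • g i‖ := by
    intro s q
    set Q : ℕ →₀ ℚ := Finsupp.indicator s fun i _ => q i with hQ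
    have e1 : cmb f Q = ∑ i ∈ s, (q i : ℝ) • f i := cmb_eq f s q
    have h1 := hf s (fun i => (q i : ℝ))
    have h2 := hx2 Q
    rw [e1] at h2
    have h3 : (∑ i ∈ s, (q i : ℝ) • f i) (x Q) = (∑ i ∈ s, (q i : ℝ) • g i) ⟨x Q, hmem Q⟩ := by
      simp [hg]
    have h4 : |(∑ i ∈ s, (q i : ℝ) • g i) ⟨x Q, hmem Q⟩| ≤ ‖∑ i ∈ s, (q i : ℝ) • g i‖ := by
      have h5 := (∑ i ∈ s, (q i : ℝ) • g i).le_opNorm ⟨x Q, hmem Q⟩
      rw [Real.norm_eq_abs] at h5
      have h6 : ‖(⟨x Q, hmem Q⟩ : Y)‖ ≤ 1 := hx1 Q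
      calc |(∑ i ∈ s, (q i : ℝ) • g i) ⟨x Q, hmem Q⟩|
          ≤ ‖∑ i ∈ s, (q i : ℝ) • g i‖ * ‖(⟨x Q, hmem Q⟩ : Y)‖ := h5
        _ ≤ ‖∑ i ∈ s, (q i : ℝ) • g i‖ * 1 := by gcongr
        _ = ‖∑ i ∈ s, (q i : ℝ) • g i‖ := mul_one _
    rw [h3] at h2
    linarith
  intro s t
  set K : ℝ := c / 2 * s.card + ∑ i ∈ s, ‖g i‖ with hK
  have hK0 : 0 ≤ K := by positivity
  apply le_of_forall_pos_le_add
  intro ε hε
  set δ : ℝ := ε / (K + 1) with hδ
  have hδ0 : 0 < δ := by positivity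
  have hδK : δ * K ≤ ε := by
    rw [hδ, div_mul_eq_mul_div, div_le_iff₀ (by linarith)]
    nlinarith
  choose q hq using fun i => exists_rat_near (t i) hδ0
  have h1 := hrat s q
  have h2 : ∑ i ∈ s, |t i| ≤ ∑ i ∈ s, |(q i : ℝ)| + δ * s.card := by
    have : ∑ i ∈ s, |t i| ≤ ∑ i ∈ s, (|(q i : ℝ)| + δ) := by
      apply Finset.sum_le_sum
      intro i _
      have h3 : |t i| ≤ |t i - q i| + |(q i : ℝ)| := by
        have := abs_add_le (t i - q i) (q i)
        simpa using this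
      linarith [hq i]
    rw [Finset.sum_add_distrib, Finset.sum_const, nsmul_eq_mul] at this
    linarith
  have h3 : ‖∑ i ∈ s, (q i : ℝ) • g i‖ ≤ ‖∑ i ∈ s, t i • g i‖ + δ * ∑ i ∈ s, ‖g i‖ := by
    exact pert g s t (fun i => (q i : ℝ)) δ fun i => (hq i).le
  have h4 : c / 2 * ∑ i ∈ s, |t i| ≤ c / 2 * (∑ i ∈ s, |(q i : ℝ)| + δ * s.card) := by gcongr
  have h5 : δ * K = c / 2 * (δ * s.card) + δ * ∑ i ∈ s, ‖g i‖ := by
    rw [hK]
    ring
  show c / 2 * ∑ i ∈ s, |t i| ≤ ‖∑ i ∈ s, t i • g i‖ + ε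
  linarith

end Pool.Agent.Lib.MPfd6009.AS
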