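import Pool.Agent.Lib.MP_fd6009_an.AS.Spec

/-!
# PIM: from a weak-star null sequence with a lower `ℓ¹` estimate to an operator into `E1`
-/

set_option autoImplicit false

open Filter Topology
open scoped Pointwise

namespace Pool.Agent.Lib.MPfd6009.AS

universe u

namespace PIMM

open Pool.Agent.SumCE (E0 e fs fs_apply dual_eq hasSum_dual summable_abs_dual norm_le_of_forall
  abs_apply_le_norm)

/-- an enumeration -/
noncomputable def sig : Option (ℕ × ℕ) ≃ ℕ := Denumerable.eqv _

variable {Y : Type u} [NormedAddCommGroup Y] [NormedSpace ℝ Y]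

/-- the first component, as a function -/
noncomputable def pf (g : ℕ → Y →L[ℝ] ℝ) (h0 : ∀ y : Y, Tendsto (fun n => g n y) atTop (𝓝 0))
    (y : Y) : E0 where
  toFun := fun p => g (sig (some p)) y
  continuous_toFun := continuous_of_discreteTopology
  zero_at_infty' := by
    rw [cocompact_eq_cofinite]
    have h1 : Function.Injective (fun p : ℕ × ℕ => sig (some p)) :=
      sig.injective.comp (Option.some_injective _)
    have h2 := h1.tendsto_cofinite
    rw [Nat.cofinite_eq_atTop] at h2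
    exact (h0 y).comp h2

lemma pf_apply (g : ℕ → Y →L[ℝ] ℝ) (h0 : ∀ y : Y, Tendsto (fun n => g n y) atTop (𝓝 0))
    (y : Y) (p : ℕ × ℕ) : pf g h0 y p = g (sig (some p)) y := rfl

/-- the first component, as an operator -/
noncomputable def p1 (g : ℕ → Y →L[ℝ] ℝ) (h0 : ∀ y : Y, Tendsto (fun n => g n y) atTop (𝓝 0))
    (hg : ∀ n, ‖g n‖ ≤ 2) : Y →L[ℝ] E0 :=
  LinearMap.mkContinuous
    { toFun := pf g h0
      map_add' := fun x y => by
        ext p
        simp [pf_apply]
      map_smul' := fun c x => by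
        ext p
        simp [pf_apply] } 2 (fun y => by
      refine norm_le_of_forall (by positivity) fun i => ?_
      change |g (sig (some i)) y| ≤ 2 * ‖y‖
      rw [← Real.norm_eq_abs]
      exact ((g (sig (some i))).le_opNorm y).trans
        (mul_le_mul_of_nonneg_right (hg _) (norm_nonneg _)))

lemma p1_apply (g : ℕ → Y →L[ℝ] ℝ) (h0 : ∀ y : Y, Tendsto (fun n => g n y) atTop (𝓝 0))
    (hg : ∀ n, ‖g n‖ ≤ 2) (y : Y) (p : ℕ × ℕ) : p1 g h0 hg y p = g (sig (some p)) y := rfl

/-- the coefficients, indexed by `ℕ` -/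
noncomputable def co (t : ℕ × ℕ → ℝ) (t' : ℝ) (n : ℕ) : ℝ := (sig.symm n).elim t' t

lemma co_some (t : ℕ × ℕ → ℝ) (t' : ℝ) (i : ℕ × ℕ) : co t t' (sig (some i)) = t i := by
  simp [co]

lemma co_none (t : ℕ × ℕ → ℝ) (t' : ℝ) : co t t' (sig none) = t' := by
  simp [co]

lemma norm_le (a : E1 →L[ℝ] ℝ) : ‖a‖ ≤ ∑' i, |fs a (e i)| + |a (0, 1)| := by
  have hS := summable_abs_dual (fs a)
  have hS0 : 0 ≤ ∑' i, |fs a (e i)| := tsum_nonneg fun _ => abs_nonneg _
  refine ContinuousLinearMap.opNorm_le_bound _ (by positivity) fun x => ?_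
  rw [dual_eq a x]
  have h1 : ‖fs a x.1‖ ≤ (∑' i, |fs a (e i)|) * ‖x‖ := by
    refine (hasSum_dual (fs a) x.1).norm_le_of_bounded (hS.hasSum.mul_right ‖x‖) fun i => ?_
    rw [norm_mul, Real.norm_eq_abs, Real.norm_eq_abs, mul_comm]
    exact mul_le_mul_of_nonneg_left ((abs_apply_le_norm x.1 i).trans (norm_fst_le x)) (abs_nonneg _)
  have h2 : ‖a (0, 1) * x.2‖ ≤ |a (0, 1)| * ‖x‖ := by
    rw [norm_mul, Real.norm_eq_abs]
    exact mul_le_mul_of_nonneg_left (norm_snd_le x) (abs_nonneg _)
  calc ‖fs a x.1 + a (0, 1) * x.2‖ ≤ ‖fs a x.1‖ + ‖a (0, 1) * x.2‖ := norm_add_le _ _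
    _ ≤ (∑' i, |fs a (e i)| + |a (0, 1)|) * ‖x‖ := by
      rw [add_mul]
      exact add_le_add h1 h2

end PIMM

open PIMM in
open Pool.Agent.SumCE (E0 e fs fs_apply dual_eq hasSum_dual summable_abs_dual norm_le_of_forall
  abs_apply_le_norm) in
theorem specPIM : SpecPIM.{u} := by
  classical
  intro Y _ _ g c hc hg h0 hl
  refine ⟨(p1 g h0 hg).prod (g (sig none)), fun a => ?_⟩
  set π : Y →L[ℝ] E1 := (p1 g h0 hg).prod (g (sig none)) with hπ
  set t : ℕ × ℕ → ℝ := fun i => fs a (e i) with ht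
  set t' : ℝ := a (0, 1) with ht'
  have hS : Summable (fun i => |t i|) := summable_abs_dual (fs a)
  set S : ℝ := ∑' i, |t i| with hSdef
  have hval : ∀ y : Y, (a.comp π) y = fs a (p1 g h0 hg y) + t' * g (sig none) y := by
    intro y
    have h1 : (a.comp π) y = a (π y) := rfl
    rw [h1, dual_eq a (π y)]
    rfl
  have key : ∀ F : Finset (ℕ × ℕ), c * (∑ i ∈ F, |t i| + |t'|) ≤
      ‖a.comp π‖ + 2 * (S - ∑ i ∈ F, |t i|) := by
    intro F
    have h1 := hl ((Finset.insertNone F).map sig.toEmbedding) (co t t')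
    rw [Finset.sum_map, Finset.sum_map] at h1
    simp only [Equiv.coe_toEmbedding] at h1
    rw [Finset.sum_insertNone, Finset.sum_insertNone] at h1
    simp only [co_some, co_none] at h1
    have h2 : c * (∑ i ∈ F, |t i| + |t'|) = c * (|t'| + ∑ i ∈ F, |t i|) := by ring
    rw [h2]
    refine h1.trans ?_
    set b : Y →L[ℝ] ℝ := t' • g (sig none) + ∑ i ∈ F, t i • g (sig (some i)) with hb
    have h3 : ‖b - a.comp π‖ ≤ 2 * (S - ∑ i ∈ F, |t i|) := by
      have hnn : 0 ≤ S - ∑ i ∈ F, |t i| := by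
        have := hS.sum_le_tsum F (fun i _ => abs_nonneg _)
        linarith
      refine ContinuousLinearMap.opNorm_le_bound _ (by positivity) fun y => ?_
      have h4 : (b - a.comp π) y = -(fs a (p1 g h0 hg y) -
          ∑ i ∈ F, (p1 g h0 hg y i * fs a (e i))) := by
        have h5 : (b - a.comp π) y = b y - (a.comp π) y := rfl
        have h6 : b y = t' * g (sig none) y + ∑ i ∈ F, t i * g (sig (some i)) y := by
          rw [hb, add_apply, sum_apply]
          rfl
        have h7 : ∑ i ∈ F, (p1 g h0 hg y i * fs a (e i)) = ∑ i ∈ F, t i * g (sig (some i)) y :=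
          Finset.sum_congr rfl fun i _ => by
            rw [p1_apply, mul_comm]
        rw [h5, h6, hval y, h7]
        ring
      rw [h4, norm_neg]
      have h8 : HasSum (fun i => p1 g h0 hg y i * fs a (e i) -
          (if i ∈ F then p1 g h0 hg y i * fs a (e i) else 0))
          (fs a (p1 g h0 hg y) - ∑ i ∈ F, (p1 g h0 hg y i * fs a (e i))) := by
        refine (hasSum_dual (fs a) (p1 g h0 hg y)).sub ?_
        have h9 : HasSum (fun i => if i ∈ F then p1 g h0 hg y i * fs a (e i) else 0)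
            (∑ i ∈ F, if i ∈ F then p1 g h0 hg y i * fs a (e i) else 0) :=
          hasSum_sum_of_ne_finset_zero (fun i hi => by simp [hi])
        rwa [Finset.sum_congr rfl (fun i hi => if_pos hi)] at h9
      have h10 : HasSum (fun i => 2 * (|t i| - (if i ∈ F then |t i| else 0)) * ‖y‖)
          (2 * (S - ∑ i ∈ F, |t i|) * ‖y‖) := by
        refine ((hS.hasSum.sub ?_).mul_left 2).mul_right ‖y‖
        have h9 : HasSum (fun i => if i ∈ F then |t i| else 0)
            (∑ i ∈ F, if i ∈ F then |t i| else 0) :=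
          hasSum_sum_of_ne_finset_zero (fun i hi => by simp [hi])
        rwa [Finset.sum_congr rfl (fun i hi => if_pos hi)] at h9
      refine h8.norm_le_of_bounded h10 fun i => ?_
      by_cases hi : i ∈ F
      · simp [hi]
      · simp only [hi, if_false, sub_zero]
        rw [norm_mul, Real.norm_eq_abs, Real.norm_eq_abs, p1_apply]
        have h11 : |g (sig (some i)) y| ≤ 2 * ‖y‖ := by
          rw [← Real.norm_eq_abs]
          exact ((g (sig (some i))).le_opNorm y).trans
            (mul_le_mul_of_nonneg_right (hg _) (norm_nonneg _))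
        have h12 : 0 ≤ |t i| := abs_nonneg _
        calc |g (sig (some i)) y| * |fs a (e i)| ≤ 2 * ‖y‖ * |t i| :=
              mul_le_mul_of_nonneg_right h11 h12
          _ = 2 * |t i| * ‖y‖ := by ring
    calc ‖b‖ = ‖a.comp π + (b - a.comp π)‖ := by rw [add_sub_cancel]
      _ ≤ ‖a.comp π‖ + ‖b - a.comp π‖ := norm_add_le _ _
      _ ≤ _ := by linarith
  have hlim : c * (S + |t'|) ≤ ‖a.comp π‖ + 2 * (S - S) := by
    refine le_of_tendsto_of_tendsto' (b := atTop) ?_ ?_ key
    · exact (hS.hasSum.add_const |t'|).const_mul c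
    · exact (tendsto_const_nhds.sub hS.hasSum).const_mul 2 |>.const_add _
  have h1 := norm_le a
  rw [sub_self, mul_zero, add_zero] at hlim
  exact (mul_le_mul_of_nonneg_left h1 hc.le).trans hlim

end Pool.Agent.Lib.MPfd6009.AS
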