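import Pool.Agent.Lib.MP_fd6009_an.AS.Spec

/-!
# Module SUM (MP_fd6009_an, AS): the sum with the normal cone of the half space (helper26)
-/

set_option autoImplicit false

open Filter Topology
open scoped Pointwise

namespace Pool.Agent.Lib.MPfd6009.AS

universe u

namespace SUMM

variable {X : Type u} [NormedAddCommGroup X] [NormedSpace ℝ X] {Z : Type} [NormedAddCommGroup Z]
  [NormedSpace ℝ Z]

lemma lift_mono {Y : Submodule ℝ X} {π : Y →L[ℝ] Z} {A : Z → Set (Z →L[ℝ] ℝ)}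
    (hA : IsMonotone A) : IsMonotone (lift Y π A) := by
  rintro x y a b ⟨hx, c, hc, hac⟩ ⟨hy, d, hd, hbd⟩
  have h1 := hA (π ⟨x, hx⟩) (π ⟨y, hy⟩) c d hc hd
  have h2 := hac (⟨x, hx⟩ - ⟨y, hy⟩)
  have h3 := hbd (⟨x, hx⟩ - ⟨y, hy⟩)
  rw [map_sub] at h2 h3
  have h4 : (((⟨x, hx⟩ - ⟨y, hy⟩ : Y)) : X) = x - y := rfl
  rw [h4] at h2 h3
  rw [_root_.sub_apply] at h1 ⊢
  rw [h2, h3]
  exact h1

lemma cone_mono (C : Set X) : IsMonotone (normalCone C) := by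
  rintro x y a b ⟨hx, ha⟩ ⟨hy, hb⟩
  have h1 := ha y hy
  have h2 := hb x hx
  rw [_root_.sub_apply]
  rw [← neg_sub x y, map_neg] at h1
  linarith

lemma sum_mono {A B : X → Set (X →L[ℝ] ℝ)} (hA : IsMonotone A) (hB : IsMonotone B) :
    IsMonotone (sum A B) := by
  rintro x y _ _ ⟨a, ha, b, hb, rfl⟩ ⟨a', ha', b', hb', rfl⟩
  have h1 := hA x y a a' ha ha'
  have h2 := hB x y b b' hb hb'
  simp only [_root_.sub_apply, _root_.add_apply] at h1 h2 ⊢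
  linarith

end SUMM

open SUMM in
theorem specSUM (hHLF : SpecHLF.{u}) : SpecSUM.{u} := by
  intro X _ _ Z _ _ Y π A h k hπ hk hA hrel
  have hmono : IsMonotone (sum (lift Y π A) (normalCone (halfSpace k))) :=
    sum_mono (lift_mono hA) (cone_mono _)
  refine ⟨hmono, ?_⟩
  rintro ⟨-, hmax⟩
  obtain ⟨z, c, hzc, hnot⟩ := hrel
  obtain ⟨y₀, hy₀⟩ := hπ z
  obtain ⟨a₀, ha₀, -⟩ := exists_extension_norm_eq Y (c.comp π)
  have ha₀' : ∀ y : Y, a₀ y = c (π y) := fun y => by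
    rw [ha₀ y]
    rfl
  have hN := (hHLF X k).2.2.2
  -- the relation
  have hr : ∀ (y : X) (b : X →L[ℝ] ℝ), b ∈ sum (lift Y π A) (normalCone (halfSpace k)) y →
      0 ≤ (a₀ - b) ((y₀ : X) - y) := by
    rintro y _ ⟨b, ⟨hy, d, hd, hbd⟩, e, he, rfl⟩
    obtain ⟨hky, s, hs, hsk, rfl⟩ := (hN y e).1 he
    have hkπ := hk ⟨y, hy⟩
    have hcone : s • h ∈ normalCone (halfSpace h) (π ⟨y, hy⟩) := by
      refine ⟨?_, ?_⟩
      · show h (π ⟨y, hy⟩) ≤ 0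
        rw [← hkπ]
        exact hky
      · intro w hw
        have hw' : h w ≤ 0 := hw
        rw [ContinuousLinearMap.smul_apply, map_sub, smul_eq_mul, mul_sub, ← hkπ]
        have h1 : s * k ((⟨y, hy⟩ : Y) : X) = 0 := hsk
        rw [h1, sub_zero]
        exact mul_nonpos_of_nonneg_of_nonpos hs hw'
    have h1 := hzc (π ⟨y, hy⟩) (d + s • h) ⟨d, hd, s • h, hcone, rfl⟩
    have h2 := ha₀' (y₀ - ⟨y, hy⟩)
    have h3 := hbd (y₀ - ⟨y, hy⟩)
    have h4 := hk (y₀ - ⟨y, hy⟩)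
    have h5 : (((y₀ - ⟨y, hy⟩ : Y)) : X) = (y₀ : X) - y := rfl
    have h6 : π (y₀ - ⟨y, hy⟩) = z - π ⟨y, hy⟩ := by rw [map_sub, hy₀]
    rw [h5, h6] at h2 h3 h4
    simp only [_root_.sub_apply, _root_.add_apply,
      ContinuousLinearMap.smul_apply, smul_eq_mul] at h1 ⊢
    rw [h2, h3, h4]
    exact h1
  -- the extension
  have hext := hmax (fun x => {a | a ∈ sum (lift Y π A) (normalCone (halfSpace k)) x ∨
    (x = (y₀ : X) ∧ a = a₀)}) (by
      rintro x y a b (ha | ⟨rfl, rfl⟩) (hb | ⟨rfl, rfl⟩)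
      · exact hmono x y a b ha hb
      · have h1 := hr x a ha
        simp only [_root_.sub_apply, map_sub] at h1 ⊢
        linarith
      · exact hr y b hb
      · simp) (fun x a ha => Or.inl ha) (y₀ : X)
  have hmem : a₀ ∈ sum (lift Y π A) (normalCone (halfSpace k)) (y₀ : X) := hext (Or.inr ⟨rfl, rfl⟩)
  obtain ⟨b, ⟨hy, d, hd, hbd⟩, e, he, hsum⟩ := hmem
  obtain ⟨hky, s, hs, hsk, rfl⟩ := (hN (y₀ : X) e).1 he
  have hy₀' : π (⟨(y₀ : X), hy⟩ : Y) = z := by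
    rw [← hy₀]
  rw [hy₀'] at hd
  refine hnot ⟨d, hd, s • h, ⟨?_, ?_⟩, ?_⟩
  · show h z ≤ 0
    rw [← hy₀, ← hk y₀]
    exact hky
  · intro w hw
    have hw' : h w ≤ 0 := hw
    rw [ContinuousLinearMap.smul_apply, map_sub, smul_eq_mul, mul_sub, ← hy₀, ← hk y₀, hsk,
      sub_zero]
    exact mul_nonpos_of_nonneg_of_nonpos hs hw'
  · refine ContinuousLinearMap.ext fun w => ?_
    obtain ⟨y, hy'⟩ := hπ w
    have h1 := ha₀' y
    have h2 := hbd y
    have h3 := hk y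
    rw [← hsum] at h1
    simp only [_root_.add_apply, ContinuousLinearMap.smul_apply, smul_eq_mul] at h1 ⊢
    rw [hy'] at h1 h2 h3
    rw [h2, h3] at h1
    exact h1

end Pool.Agent.Lib.MPfd6009.AS
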