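import Pool.Agent.Lib.MP_fd6009_an.AS.Spec

/-!
# Module SUR (helper41): an operator whose adjoint is bounded below is onto
-/

set_option autoImplicit false

open Filter Topology
open scoped Pointwise

namespace Pool.Agent.Lib.MPfd6009.AS

universe u

namespace SURM

lemma closure_step {Y : Type u} [NormedAddCommGroup Y] [NormedSpace ℝ Y] {Z : Type}
    [NormedAddCommGroup Z] [NormedSpace ℝ Z] (π : Y →L[ℝ] Z) (c : ℝ) (hc : 0 < c)
    (h : ∀ a : Z →L[ℝ] ℝ, c * ‖a‖ ≤ ‖a.comp π‖) (z : Z) (hz : ‖z‖ < c) :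
    z ∈ closure (π '' Metric.closedBall (0 : Y) 1) := by
  by_contra hcon
  have hconv : Convex ℝ (closure (π '' Metric.closedBall (0 : Y) 1)) :=
    ((convex_closedBall (0 : Y) 1).linear_image (π : Y →ₗ[ℝ] Z)).closure
  obtain ⟨a, v, ha, hv⟩ := geometric_hahn_banach_closed_point hconv isClosed_closure hcon
  have h1 : ∀ y : Y, ‖y‖ ≤ 1 → a (π y) < v := fun y hy =>
    ha _ (subset_closure ⟨y, by simpa using hy, rfl⟩)
  have hv0 : 0 < v := by
    have := h1 0 (by simp)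
    simpa using this
  have h2 : ‖a.comp π‖ ≤ v := by
    refine ContinuousLinearMap.opNorm_le_of_unit_norm hv0.le fun y hy => ?_
    rw [ContinuousLinearMap.comp_apply, Real.norm_eq_abs, abs_le]
    constructor
    · have := h1 (-y) (by rw [norm_neg, hy])
      rw [map_neg, map_neg] at this
      linarith
    · exact (h1 y hy.le).le
  have h3 : a z ≤ ‖a‖ * ‖z‖ := (le_abs_self _).trans (a.le_opNorm z)
  have h4 : ‖a‖ * ‖z‖ ≤ ‖a‖ * c := mul_le_mul_of_nonneg_left hz.le (norm_nonneg a)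
  have h5 := h a
  linarith [mul_comm c ‖a‖]

lemma approx_step {Y : Type u} [NormedAddCommGroup Y] [NormedSpace ℝ Y] {Z : Type}
    [NormedAddCommGroup Z] [NormedSpace ℝ Z] (π : Y →L[ℝ] Z) (c : ℝ) (hc : 0 < c)
    (h : ∀ a : Z →L[ℝ] ℝ, c * ‖a‖ ≤ ‖a.comp π‖) (z : Z) :
    ∃ y : Y, ‖y‖ ≤ 2 / c * ‖z‖ ∧ ‖z - π y‖ ≤ 1 / 2 * ‖z‖ := by
  by_cases hz : z = 0
  · exact ⟨0, by simp [hz], by simp [hz]⟩
  have hz0 : 0 < ‖z‖ := norm_pos_iff.mpr hz
  set k : ℝ := 2 * ‖z‖ / c with hk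
  have hk0 : 0 < k := by positivity
  have hw : ‖k⁻¹ • z‖ < c := by
    rw [norm_smul, norm_inv, Real.norm_of_nonneg hk0.le, hk, inv_div]
    have : c / (2 * ‖z‖) * ‖z‖ = c / 2 := by field_simp
    rw [this]
    linarith
  have h1 := closure_step π c hc h _ hw
  rw [Metric.mem_closure_iff] at h1
  obtain ⟨_, ⟨y₀, hy₀, rfl⟩, hd⟩ := h1 (c / 4) (by positivity)
  rw [Metric.mem_closedBall, dist_zero_right] at hy₀
  rw [dist_eq_norm] at hd
  refine ⟨k • y₀, ?_, ?_⟩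
  · rw [norm_smul, Real.norm_of_nonneg hk0.le]
    calc k * ‖y₀‖ ≤ k * 1 := mul_le_mul_of_nonneg_left hy₀ hk0.le
      _ = 2 / c * ‖z‖ := by rw [hk]; ring
  · have e : z - π (k • y₀) = k • (k⁻¹ • z - π y₀) := by
      rw [smul_sub, smul_inv_smul₀ hk0.ne', map_smul]
    rw [e, norm_smul, Real.norm_of_nonneg hk0.le]
    calc k * ‖k⁻¹ • z - π y₀‖ ≤ k * (c / 4) := mul_le_mul_of_nonneg_left hd.le hk0.le
      _ = 1 / 2 * ‖z‖ := by rw [hk]; field_simp; ring

end SURM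

open SURM in
theorem specSUR : SpecSUR.{u} := by
  intro Y _ _ _ Z _ _ π c hc h
  choose g hg1 hg2 using fun z => approx_step π c hc h z
  refine ⟨2 * (2 / c), fun z => ?_⟩
  set f : Z → Z := fun z => z - π (g z) with hf
  have hfn : ∀ n : ℕ, ‖f^[n] z‖ ≤ (1 / 2) ^ n * ‖z‖ := by
    intro n
    induction n with
    | zero => simp
    | succ n ih =>
      rw [Function.iterate_succ', Function.comp_apply]
      calc ‖f (f^[n] z)‖ ≤ 1 / 2 * ‖f^[n] z‖ := hg2 _
        _ ≤ 1 / 2 * ((1 / 2) ^ n * ‖z‖) := by gcongr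
        _ = (1 / 2) ^ (n + 1) * ‖z‖ := by ring
  set w : ℕ → Y := fun n => g (f^[n] z) with hw
  have hwn : ∀ n, ‖w n‖ ≤ (1 / 2) ^ n * (2 / c * ‖z‖) := by
    intro n
    calc ‖w n‖ ≤ 2 / c * ‖f^[n] z‖ := hg1 _
      _ ≤ 2 / c * ((1 / 2) ^ n * ‖z‖) := by
          have := hfn n
          gcongr
      _ = (1 / 2) ^ n * (2 / c * ‖z‖) := by ring
  have hgeo : HasSum (fun n : ℕ => ((1 : ℝ) / 2) ^ n * (2 / c * ‖z‖)) (2 * (2 / c * ‖z‖)) :=
    hasSum_geometric_two.mul_right _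
  have hsN : Summable fun n => ‖w n‖ :=
    Summable.of_nonneg_of_le (fun _ => norm_nonneg _) hwn hgeo.summable
  have hs : Summable w := hsN.of_norm
  refine ⟨∑' n, w n, ?_, ?_⟩
  · have hpart : ∀ n : ℕ, π (∑ i ∈ Finset.range n, w i) = z - f^[n] z := by
      intro n
      induction n with
      | zero => simp
      | succ n ih =>
        rw [Finset.sum_range_succ, map_add, ih, Function.iterate_succ', Function.comp_apply]
        simp only [hf, hw]
        abel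
    have hl1 : Tendsto (fun n : ℕ => π (∑ i ∈ Finset.range n, w i)) atTop (𝓝 (π (∑' n, w n))) :=
      (π.continuous.tendsto _).comp hs.hasSum.tendsto_sum_nat
    have hl2 : Tendsto (fun n : ℕ => z - f^[n] z) atTop (𝓝 (z - 0)) := by
      refine tendsto_const_nhds.sub ?_
      refine squeeze_zero_norm hfn ?_
      have : Tendsto (fun n : ℕ => ((1 : ℝ) / 2) ^ n * ‖z‖) atTop (𝓝 (0 * ‖z‖)) :=
        (tendsto_pow_atTop_nhds_zero_of_lt_one (by norm_num) (by norm_num)).mul_const _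
      simpa using this
    simp only [hpart] at hl1
    have := tendsto_nhds_unique hl1 hl2
    simpa using this
  · calc ‖∑' n, w n‖ ≤ ∑' n, ‖w n‖ := norm_tsum_le_tsum_norm hsN
      _ ≤ ∑' n : ℕ, ((1 : ℝ) / 2) ^ n * (2 / c * ‖z‖) := hsN.tsum_le_tsum hwn hgeo.summable
      _ = 2 * (2 / c * ‖z‖) := hgeo.tsum_eq
      _ = 2 * (2 / c) * ‖z‖ := by ring

end Pool.Agent.Lib.MPfd6009.AS
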