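import Pool.Agent.Lib.MP_fd6009_an.AS.Spec

/-!
# AS, module WSQ
-/

set_option autoImplicit false

open Filter Topology

namespace Pool.Agent.Lib.MPfd6009.AS

universe u

namespace WSQM

/-- the lower bound for a subsequence -/
theorem sub_bd {Y : Type u} [NormedAddCommGroup Y] [NormedSpace ℝ Y] (f : ℕ → Y →L[ℝ] ℝ) (c : ℝ)
    (h : ∀ (s : Finset ℕ) (t : ℕ → ℝ), c * ∑ i ∈ s, |t i| ≤ ‖∑ i ∈ s, t i • f i‖)
    (φ : ℕ → ℕ) (hφ : Function.Injective φ) (J : Finset ℕ) (u : ℕ → ℝ) :
    c * ∑ j ∈ J, |u j| ≤ ‖∑ j ∈ J, u j • f (φ j)‖ := by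
  have h1 := h (J.image φ) (Function.extend φ u 0)
  rw [Finset.sum_image (fun a _ b _ hab => hφ hab), Finset.sum_image (fun a _ b _ hab => hφ hab)] at h1
  simpa only [hφ.extend_apply] using h1

end WSQM

open WSQM in
theorem specWSQ : SpecWSQ.{u} := by
  intro Y _ _ _ f c hc hf h
  have hF : ∀ n, StrongDual.toWeakDual (f n) ∈
      (WeakDual.toStrongDual ⁻¹' Metric.closedBall (0 : StrongDual ℝ Y) 1) := by
    intro n
    show dist (f n) 0 ≤ 1
    rw [dist_zero_right]
    exact hf n
  obtain ⟨a, -, φ, hφ, hlim⟩ := WeakDual.isSeqCompact_closedBall ℝ Y (0 : StrongDual ℝ Y) 1 hF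
  have hev : ∀ y : Y, Tendsto (fun n => f (φ n) y) atTop (𝓝 (a y)) := fun y =>
    ((WeakDual.eval_continuous y).tendsto a).comp hlim
  refine ⟨fun k => f (φ (2 * k)) - f (φ (2 * k + 1)), ?_, ?_, ?_⟩
  · intro n
    refine (norm_sub_le _ _).trans ?_
    have h1 := hf (φ (2 * n))
    have h2 := hf (φ (2 * n + 1))
    linarith
  · intro y
    have h1 : Tendsto (fun k : ℕ => 2 * k) atTop atTop :=
      tendsto_atTop_mono (fun k => by show k ≤ _; omega) tendsto_id
    have h2 : Tendsto (fun k : ℕ => 2 * k + 1) atTop atTop :=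
      tendsto_atTop_mono (fun k => by show k ≤ _; omega) tendsto_id
    have h3 := ((hev y).comp h1).sub ((hev y).comp h2)
    rw [sub_self] at h3
    exact h3
  · intro s t
    set J1 := s.image (fun k => 2 * k) with hJ1
    set J2 := s.image (fun k => 2 * k + 1) with hJ2
    have hd : Disjoint J1 J2 := by
      rw [Finset.disjoint_left]
      intro j h1 h2
      rw [hJ1, Finset.mem_image] at h1
      rw [hJ2, Finset.mem_image] at h2
      obtain ⟨k, _, hk⟩ := h1
      obtain ⟨l, _, hl⟩ := h2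
      omega
    let u : ℕ → ℝ := fun j => if j % 2 = 0 then t (j / 2) else - t (j / 2)
    have hu1 : ∀ k, u (2 * k) = t k := by
      intro k
      show (if (2 * k) % 2 = 0 then t (2 * k / 2) else - t (2 * k / 2)) = t k
      rw [if_pos (by omega), show 2 * k / 2 = k by omega]
    have hu2 : ∀ k, u (2 * k + 1) = - t k := by
      intro k
      show (if (2 * k + 1) % 2 = 0 then t ((2 * k + 1) / 2) else - t ((2 * k + 1) / 2)) = - t k
      rw [if_neg (by omega), show (2 * k + 1) / 2 = k by omega]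
    have hi1 : ∀ x ∈ s, ∀ y ∈ s, (fun k => 2 * k) x = (fun k => 2 * k) y → x = y := by
      intro x _ y _ hxy
      have : 2 * x = 2 * y := hxy
      omega
    have hi2 : ∀ x ∈ s, ∀ y ∈ s, (fun k => 2 * k + 1) x = (fun k => 2 * k + 1) y → x = y := by
      intro x _ y _ hxy
      have : 2 * x + 1 = 2 * y + 1 := hxy
      omega
    have key := sub_bd f c h φ hφ.injective (J1 ∪ J2) u
    rw [Finset.sum_union hd, Finset.sum_union hd, hJ1, hJ2, Finset.sum_image hi1, Finset.sum_image hi2,
      Finset.sum_image hi1, Finset.sum_image hi2] at key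
    simp only [hu1, hu2, abs_neg] at key
    have e : ∑ k ∈ s, t k • (f (φ (2 * k)) - f (φ (2 * k + 1))) =
        ∑ k ∈ s, t k • f (φ (2 * k)) + ∑ k ∈ s, - t k • f (φ (2 * k + 1)) := by
      rw [← Finset.sum_add_distrib]
      refine Finset.sum_congr rfl fun k _ => ?_
      ext y
      simp only [add_apply, sub_apply, smul_apply, smul_eq_mul]
      ring
    rw [e]
    have h0 : 0 ≤ c * ∑ k ∈ s, |t k| := mul_nonneg hc.le (Finset.sum_nonneg fun _ _ => abs_nonneg _)
    refine le_trans ?_ key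
    rw [mul_add]
    linarith

end Pool.Agent.Lib.MPfd6009.AS
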