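import Pool.Agent.Lib.MP_fd6009_an.AS.LFT
import Pool.Agent.Lib.MP_fd6009_an.AS.HLF
import Pool.Agent.Lib.MP_fd6009_an.AS.SUM
import Pool.Agent.Lib.MP_fd6009_an.AS.BSE
import Pool.Agent.Lib.MP_fd6009_an.AS.SUR
import Pool.Agent.Lib.MP_fd6009_an.AS.PIM
import Pool.Agent.Lib.MP_fd6009_an.AS.NRM
import Pool.Agent.Lib.MP_fd6009_an.AS.WSQ
import Pool.Agent.Lib.MP_fd6009_an.AS.FIN
import Pool.Agent.Lib.MP_fd6009_an.AS.ECO
import Pool.Agent.Lib.MP_fd6009_an.AS.ELO

/-!
# The sum theorem fails in every Banach space whose dual contains `ℓ¹`: assembly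
-/

set_option autoImplicit false

namespace Pool.Agent.Lib.MPfd6009.AS

universe u

theorem main : SpecFIN.{u} :=
  specFIN specLFT specHLF (specSUM specHLF) specBSE specSUR specPIM specNRM specWSQ

theorem mainC0 : SpecECO.{u} := specECO

theorem mainL1 : SpecELO.{u} := specELO

end Pool.Agent.Lib.MPfd6009.AS
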