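import Pool.Agent.Lib.MP_fd6009_an.Local
import Pool.Agent.Lib.MP_fd6009_an.NormalCone

/-!
# The sum theorem fails in every Banach space whose dual contains `ℓ¹`: specification

THEOREM.  Let `X` be a real Banach space whose dual contains an isomorphic copy of `ℓ¹` (this holds if
`X` contains `c₀` or `ℓ¹`).  There are `A` of type (FPV) and a closed half space `H` with
`dom A ∩ int H ≠ ∅` such that `A + N_H` is not maximally monotone.

PLAN.  `X` has a closed subspace `Y` with a continuous linear surjection `π : Y → Z`,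
`Z = C₀(ℕ × ℕ) × ℝ`.  The operator `A` of the landed counterexample on `Z` is pulled back to `Y` along
`π` and then extended to `X` by all extensions of functionals.

CONVENTIONS.  Every module `XXX` is a file `Pool/Agent/Lib/MP_fd6009_an/AS/XXX.lean` which imports this
file (and landed files) and proves `theorem specXXX (hYYY : SpecYYY) .. : SpecXXX` (with universe
`.{u}` where the Spec has one) in the namespace `Pool.Agent.Lib.MPfd6009.AS`; own lemmas in a namespace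
`XXXM`.
-/

set_option autoImplicit false

open Filter Topology
open scoped Pointwise

namespace Pool.Agent.Lib.MPfd6009.AS

universe u

section Defs

variable {X : Type u} [NormedAddCommGroup X] [NormedSpace ℝ X]

/-- The domain of a set-valued operator. -/
def dom (A : X → Set (X →L[ℝ] ℝ)) : Set X := {x | (A x).Nonempty}

/-- Monotone operators. -/
def IsMonotone (A : X → Set (X →L[ℝ] ℝ)) : Prop :=
  ∀ (x y : X) (a b : X →L[ℝ] ℝ), a ∈ A x → b ∈ A y → 0 ≤ (a - b) (x - y)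

/-- Maximally monotone operators: monotone, without proper monotone extension. -/
def IsMaximal (A : X → Set (X →L[ℝ] ℝ)) : Prop :=
  IsMonotone A ∧ ∀ A' : X → Set (X →L[ℝ] ℝ), IsMonotone A' → (∀ x, A x ⊆ A' x) →
    ∀ x, A' x ⊆ A x

/-- Operators of type (FPV). -/
def TypeFPV (A : X → Set (X →L[ℝ] ℝ)) : Prop :=
  IsMaximal A ∧ ∀ U : Set X, IsOpen U → Convex ℝ U → (U ∩ dom A).Nonempty →
    ∀ x ∈ U, ∀ a : X →L[ℝ] ℝ, (∀ y ∈ U, ∀ b ∈ A y, 0 ≤ (a - b) (x - y)) → a ∈ A x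

/-- A stronger form of type (FPV): all open sets meeting the domain, convex or not. -/
def StrongFPV (A : X → Set (X →L[ℝ] ℝ)) : Prop :=
  IsMaximal A ∧ ∀ U : Set X, IsOpen U → (U ∩ dom A).Nonempty →
    ∀ x ∈ U, ∀ a : X →L[ℝ] ℝ, (∀ y ∈ U, ∀ b ∈ A y, 0 ≤ (a - b) (x - y)) → a ∈ A x

/-- Local maximality on all open sets. -/
def LocMax (A : X → Set (X →L[ℝ] ℝ)) : Prop :=
  ∀ U : Set X, IsOpen U →
    ∀ x ∈ U, ∀ a : X →L[ℝ] ℝ, (∀ y ∈ U, ∀ b ∈ A y, 0 ≤ (a - b) (x - y)) → a ∈ A x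

/-- The normal cone operator of a set `C`, that is the subdifferential of its indicator
function. -/
def normalCone (C : Set X) (x : X) : Set (X →L[ℝ] ℝ) :=
  {a | x ∈ C ∧ ∀ y ∈ C, a (y - x) ≤ 0}

/-- The pointwise sum of two operators. -/
def sum (A B : X → Set (X →L[ℝ] ℝ)) (x : X) : Set (X →L[ℝ] ℝ) :=
  {c | ∃ a ∈ A x, ∃ b ∈ B x, a + b = c}

/-- The closed half space of a functional. -/
def halfSpace (h : X →L[ℝ] ℝ) : Set X := {x | h x ≤ 0}

/-- The dual of `X` contains an isomorphic copy of `ℓ¹`: a bounded sequence of functionals with a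
lower `ℓ¹` estimate. -/
def DualHasEllOne (X : Type u) [NormedAddCommGroup X] [NormedSpace ℝ X] : Prop :=
  ∃ (f : ℕ → X →L[ℝ] ℝ) (c : ℝ), 0 < c ∧ (∀ n, ‖f n‖ ≤ 1) ∧
    ∀ (s : Finset ℕ) (t : ℕ → ℝ), c * ∑ i ∈ s, |t i| ≤ ‖∑ i ∈ s, t i • f i‖

/-- The operator `A` on `Z`, pulled back along `π : Y → Z` and extended from `Y` to `X`: the
functionals at `x ∈ Y` are all extensions of the `c ∘ π`, `c ∈ A (π x)`. -/
def lift {Z : Type} [NormedAddCommGroup Z] [NormedSpace ℝ Z] (Y : Submodule ℝ X) (π : Y →L[ℝ] Z)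
    (A : Z → Set (Z →L[ℝ] ℝ)) (x : X) : Set (X →L[ℝ] ℝ) :=
  {a | ∃ hx : x ∈ Y, ∃ c ∈ A (π ⟨x, hx⟩), ∀ y : Y, a y = c (π y)}

end Defs

/-- The space `C₀(ℕ × ℕ) × ℝ` of the landed counterexample. -/
abbrev E1 : Type := Pool.Agent.SumCE.E1

/-- The second coordinate as a functional on `E1`. -/
noncomputable def sndE : E1 →L[ℝ] ℝ := ContinuousLinearMap.snd ℝ Pool.Agent.SumCE.E0 ℝ

/-- Module LFT (150 lines).  PROOF.  Extensions of functionals from `Y` to `X` exist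
(`Real.exists_extension_norm_eq`).  (0) Monotone: `(a - b) (x - y) = (c - d) (π x - π y)`.
Domain: lift a point of `dom A` to `Y`, extend `c ∘ π`.
(1) Let `U` be open, `y₀ ∈ U`, `a₀ ∈ lift y₀`, `x ∈ U` and `a` with `0 ≤ (a - b) (x - y)` for all
`y ∈ U`, `b ∈ lift y`.  Then `x ∈ Y`: otherwise there is `f` with `f = 0` on `Y` and `f x = 1` (`Y` is
closed; Hahn-Banach), `a₀ + t f ∈ lift y₀` for all `t`, and `0 ≤ (a - a₀) (x - y₀) - t` for all `t`.
(2) `a k = 0` for `k ∈ ker π`.  Otherwise assume `a k = 1` (multiply `k`).  Let `ball x r ⊆ U`,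
`s = r / (2 (‖k‖ + 1))`, `z₁ = π x`, `δ > 0` with `|C| δ < r / 2` and `‖a‖ |C| δ ≤ s / 2`.  For `c ∈ A z`
with `‖z - z₁‖ < δ` choose `w ∈ Y`, `π w = z - z₁`, `‖w‖ ≤ C ‖z - z₁‖`, and an extension `b` of
`c ∘ π`.  Then `x + w + s k ∈ U ∩ Y` has `π`-value `z`, so `b ∈ lift (x + w + s k)` and
`0 ≤ (a - b) (- w - s k) = - a w + c (z - z₁) - s` (`b k = c (π k) = 0`), hence
`c (z - z₁) ≥ s / 2 > 0`.  So `0 ≤ (0 - c) (z₁ - z)` for all `z ∈ ball z₁ δ`, `c ∈ A z`, and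
`0 ∈ A z₁` by `LocMax`; with `z = z₁`, `c = 0` the inequality `c (z - z₁) ≥ s / 2` is absurd.
(3) So `a = ζ ∘ π` on `Y` with `ζ` linear, `|ζ z| ≤ ‖a‖ C ‖z‖`: `ζ ∈ Z*`.
(4) `V = π (U ∩ Y)` is open (radius `ρ / (|C| + 1)` around `π y` if `ball y ρ ⊆ U`) and contains
`π x`; for `z = π y ∈ V`, `y ∈ U`, `c ∈ A z` and an extension `b` of `c ∘ π`:
`0 ≤ (a - b) (x - y) = (ζ - c) (π x - z)`.  By `LocMax`, `ζ ∈ A (π x)`, so `a ∈ lift x`.
(5) Maximality: if `A'` is a monotone extension and `a ∈ A' x` use (1)-(4) with `U = univ`. -/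
def SpecLFT : Prop :=
  ∀ (X : Type u) [NormedAddCommGroup X] [NormedSpace ℝ X] (Z : Type) [NormedAddCommGroup Z]
    [NormedSpace ℝ Z] (Y : Submodule ℝ X) (π : Y →L[ℝ] Z) (C : ℝ) (A : Z → Set (Z →L[ℝ] ℝ)),
    IsClosed (Y : Set X) → (∀ z : Z, ∃ y : Y, π y = z ∧ ‖y‖ ≤ C * ‖z‖) →
    IsMonotone A → LocMax A → (dom A).Nonempty →
    (∀ z ∈ dom A, ∀ y : Y, π y = z → (y : X) ∈ dom (lift Y π A)) ∧ StrongFPV (lift Y π A)

/-- Module HLF (80 lines).  PROOF.  Last clause: `→`: for `h v = 0` use `y = x ± v`: `a v = 0`.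
If `h = 0` then `a = 0`, `s = 0`.  Otherwise take `v₀` with `h v₀ = 1` and `s = a v₀`:
`a v = a (v - h v • v₀) + h v * s = s * h v`; `y = x - v₀` gives `0 ≤ s`; `y = x - h x • v₀` gives
`- h x * s ≤ 0`, and `h x ≤ 0`, so `s * h x = 0`.  `←`: `s * h (y - x) = s * h y ≤ 0`.
Maximality: let `0 ≤ (a - b) (x - y)` for all `b ∈ N y`.  With `y = 0`, `b = s • h`, `s ≥ 0`:
`0 ≤ a x - s * h x` for all `s ≥ 0`, so `h x ≤ 0`; with `b = 0`: `a (y - x) ≤ 0` for `h y ≤ 0`.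
(A monotone extension `A'` and `a ∈ A' x` satisfy the hypothesis.)  Domain: `0 ∈ N x`.
Interior: `{x | h x < 0}` is open. -/
def SpecHLF : Prop :=
  ∀ (X : Type u) [NormedAddCommGroup X] [NormedSpace ℝ X] (h : X →L[ℝ] ℝ),
    IsMaximal (normalCone (halfSpace h)) ∧ dom (normalCone (halfSpace h)) = halfSpace h ∧
    {x | h x < 0} ⊆ interior (halfSpace h) ∧
    ∀ (x : X) (a : X →L[ℝ] ℝ), a ∈ normalCone (halfSpace h) x ↔
      (h x ≤ 0 ∧ ∃ s : ℝ, 0 ≤ s ∧ s * h x = 0 ∧ a = s • h)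

/-- Module SUM (from HLF; 90 lines).  PROOF.  Monotone: `(a + s k - b - s' k) (x - y)` is
`(a - b) (x - y) + (s k - s' k) (x - y) ≥ 0`, the second term by monotonicity of the normal cone
(first clause of HLF), the first as in LFT (0).  Not maximal: let `(z, c)` be the given pair, `y₀ ∈ Y`
with `π y₀ = z` and `a₀` an extension of `c ∘ π` to `X` (`Real.exists_extension_norm_eq`).  For every
`b + s • k` in the sum at `y` (last clause of HLF: `k y ≤ 0`, `0 ≤ s`, `s * k y = 0`), `y ∈ Y`,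
`b = d ∘ π` on `Y`, `d ∈ A (π y)`: `d + s • h` is in `sum A (normalCone (halfSpace h))` at `π y`, because
`h (π y) = k y`, and `(a₀ - (b + s • k)) (y₀ - y) = (c - (d + s • h)) (z - π y) ≥ 0`.  So adding
`(y₀, a₀)` to the graph gives a monotone operator; by maximality `a₀ = b + s • k` with `b ∈ lift y₀`,
and restricting to `Y` (`π` is onto) `c = d + s • h` is in the sum at `z`, a contradiction. -/
def SpecSUM : Prop :=
  ∀ (X : Type u) [NormedAddCommGroup X] [NormedSpace ℝ X] (Z : Type) [NormedAddCommGroup Z]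
    [NormedSpace ℝ Z] (Y : Submodule ℝ X) (π : Y →L[ℝ] Z) (A : Z → Set (Z →L[ℝ] ℝ))
    (h : Z →L[ℝ] ℝ) (k : X →L[ℝ] ℝ),
    (∀ z : Z, ∃ y : Y, π y = z) → (∀ y : Y, k y = h (π y)) → IsMonotone A →
    (∃ (z : Z) (c : Z →L[ℝ] ℝ),
      (∀ (y : Z) (b : Z →L[ℝ] ℝ), b ∈ sum A (normalCone (halfSpace h)) y →
        0 ≤ (c - b) (z - y)) ∧ c ∉ sum A (normalCone (halfSpace h)) z) →
    IsMonotone (sum (lift Y π A) (normalCone (halfSpace k))) ∧
      ¬ IsMaximal (sum (lift Y π A) (normalCone (halfSpace k)))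

/-- Module BSE (80 lines; copy of `Pool/Agent/Results/MP_fd6009_an/HalfSpaceSum.lean`).  PROOF.
`A = Op (cu 0)` (`Op_cu_monotone`, `Op_local`, `Op_cu_nonempty`); the proof of the landed `result`
shows that the sum with the normal cone of `{x | x.2 ≤ 0}` is monotone and not maximal, by a related
pair outside the graph. -/
def SpecBSE : Prop :=
  ∃ A : E1 → Set (E1 →L[ℝ] ℝ), IsMonotone A ∧ LocMax A ∧
    (∃ x : E1, (A x).Nonempty ∧ sndE x < 0) ∧
    ∃ (z : E1) (c : E1 →L[ℝ] ℝ),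
      (∀ (y : E1) (b : E1 →L[ℝ] ℝ), b ∈ sum A (normalCone (halfSpace sndE)) y →
        0 ≤ (c - b) (z - y)) ∧ c ∉ sum A (normalCone (halfSpace sndE)) z

/-- Module SUR (120 lines): an operator whose adjoint is bounded below is onto.  PROOF.
(1) Every `z` with `‖z‖ < c` is in the closure of `π '' closedBall 0 1`: otherwise
`geometric_hahn_banach_closed_point` gives `a`, `v` with `a (π y) < v` for `‖y‖ ≤ 1` and `v < a z`; so
`‖a.comp π‖ ≤ v` (use `± y`; `ContinuousLinearMap.opNorm_le_of_unit_norm` or scaling), and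
`c ‖a‖ ≤ v < ‖a‖ ‖z‖ ≤ ‖a‖ c`.  (2) By scaling: for every `z` there is `y` with `‖y‖ ≤ (2 / c) ‖z‖`
and `‖z - π y‖ ≤ ‖z‖ / 2`.  (3) Iterate: `z₀ = z`, `z_(n+1) = z_n - π y_n`, `‖z_n‖ ≤ ‖z‖ / 2^n`,
`‖y_n‖ ≤ (2 / c) ‖z‖ / 2^n`; `y = ∑ y_n` (complete), `‖y‖ ≤ (4 / c) ‖z‖`, `π y = z`. -/
def SpecSUR : Prop :=
  ∀ (Y : Type u) [NormedAddCommGroup Y] [NormedSpace ℝ Y] [CompleteSpace Y] (Z : Type)
    [NormedAddCommGroup Z] [NormedSpace ℝ Z] (π : Y →L[ℝ] Z) (c : ℝ), 0 < c →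
    (∀ a : Z →L[ℝ] ℝ, c * ‖a‖ ≤ ‖a.comp π‖) →
    ∃ C : ℝ, ∀ z : Z, ∃ y : Y, π y = z ∧ ‖y‖ ≤ C * ‖z‖

/-- Module PIM (140 lines).  PROOF.  Let `σ : Option (ℕ × ℕ) ≃ ℕ` (both are denumerable) and
`π y = ((m,n) ↦ g (σ (some (m,n))) y, g (σ none) y)`; the first component tends to `0` along the cofinite
filter, `‖π y‖ ≤ 2 ‖y‖`.  For `a ∈ E1*` let `t i = a (e i, 0)` (summable, `summable_abs_dual`) and
`t' = a (0, 1)`; by `hasSum_dual`, `‖a‖ ≤ ∑ |t i| + |t'|` (sup norm), and `a.comp π` is the norm limit of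
`∑_(i ∈ F) t i • g (σ (some i)) + t' • g (σ none)`, `F` finite, because the difference has norm at most
`2 ∑_(i ∉ F) |t i|`.  The norm of the finite sum is at least `c (∑_(i ∈ F) |t i| + |t'|)` by hypothesis
(sum over the finite set `σ (F ∪ {none})`).  Let `F` grow. -/
def SpecPIM : Prop :=
  ∀ (Y : Type u) [NormedAddCommGroup Y] [NormedSpace ℝ Y] (g : ℕ → Y →L[ℝ] ℝ) (c : ℝ), 0 < c →
    (∀ n, ‖g n‖ ≤ 2) → (∀ y : Y, Tendsto (fun n => g n y) atTop (𝓝 0)) →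
    (∀ (s : Finset ℕ) (t : ℕ → ℝ), c * ∑ i ∈ s, |t i| ≤ ‖∑ i ∈ s, t i • g i‖) →
    ∃ π : Y →L[ℝ] E1, ∀ a : E1 →L[ℝ] ℝ, c * ‖a‖ ≤ ‖a.comp π‖

/-- Module NRM (120 lines): a separable subspace which norms the functionals.  PROOF.  For every
finitely supported `q : ℕ →₀ ℚ` (countably many) let `F q = ∑ q i • f i` and choose `x q` in the unit
ball of `X` with `‖F q‖ ≤ 2 |F q (x q)|` (`‖F q‖ > 0`: there is `x` with `‖x‖ ≤ 1` and
`|F x| > ‖F‖ / 2`, `ContinuousLinearMap.opNorm_le_bound`; `F q = 0`: `x q = 0`).  Let `Y` be the closure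
of the span of the `x q`, separable.  The restriction of `F q` to `Y` has norm at least `‖F q‖ / 2`,
so the estimate holds for rational `t` supported in `s` with the constant `c / 2`, and for real `t` by
density: both sides are continuous functions of `(t i)_(i ∈ s)`. -/
def SpecNRM : Prop :=
  ∀ (X : Type u) [NormedAddCommGroup X] [NormedSpace ℝ X] (f : ℕ → X →L[ℝ] ℝ) (c : ℝ), 0 < c →
    (∀ (s : Finset ℕ) (t : ℕ → ℝ), c * ∑ i ∈ s, |t i| ≤ ‖∑ i ∈ s, t i • f i‖) →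
    ∃ Y : Submodule ℝ X, IsClosed (Y : Set X) ∧ TopologicalSpace.SeparableSpace Y ∧
      ∀ (s : Finset ℕ) (t : ℕ → ℝ), c / 2 * ∑ i ∈ s, |t i| ≤
        ‖∑ i ∈ s, t i • (f i).comp Y.subtypeL‖

/-- Module WSQ (90 lines).  PROOF.  Sequential Banach-Alaoglu (`WeakDual.isSeqCompact_closedBall`):
a subsequence `f (φ n)`, `φ` strictly increasing, converges pointwise on `Y` (evaluation is
continuous on `WeakDual`).  Put `g k = f (φ (2 k)) - f (φ (2 k + 1))`: norm `≤ 2`, pointwise to `0`.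
`∑_(k ∈ s) t k • g k` is a combination of the distinct `f (φ (2k))`, `f (φ (2k+1))`, `k ∈ s`, with
coefficients `t k`, `- t k`, so its norm is at least `c * 2 * ∑ |t k| ≥ c * ∑ |t k|`. -/
def SpecWSQ : Prop :=
  ∀ (Y : Type u) [NormedAddCommGroup Y] [NormedSpace ℝ Y] [TopologicalSpace.SeparableSpace Y]
    (f : ℕ → Y →L[ℝ] ℝ) (c : ℝ), 0 < c → (∀ n, ‖f n‖ ≤ 1) →
    (∀ (s : Finset ℕ) (t : ℕ → ℝ), c * ∑ i ∈ s, |t i| ≤ ‖∑ i ∈ s, t i • f i‖) →
    ∃ g : ℕ → Y →L[ℝ] ℝ, (∀ n, ‖g n‖ ≤ 2) ∧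
      (∀ y : Y, Tendsto (fun n => g n y) atTop (𝓝 0)) ∧
      ∀ (s : Finset ℕ) (t : ℕ → ℝ), c * ∑ i ∈ s, |t i| ≤ ‖∑ i ∈ s, t i • g i‖

/-- Module FIN (from LFT, HLF, SUM, BSE, SUR, PIM, NRM, WSQ; 80 lines).  PROOF.  NRM gives `Y`, WSQ
(for the restrictions) `g`, PIM `π : Y → E1`, SUR (`Y` is complete) the constant `C`.  `A₀` from BSE,
`A = lift Y π A₀`, `k` an extension of `sndE ∘ π` to `X`.  LFT and SUM give the statement; the point
`x` of BSE lifts to `y ∈ Y ∩ dom A` with `k y = sndE x < 0`, so `k ≠ 0` and `y` is in the interior. -/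
def SpecFIN : Prop :=
  ∀ (X : Type u) [NormedAddCommGroup X] [NormedSpace ℝ X] [CompleteSpace X], DualHasEllOne X →
    ∃ (A : X → Set (X →L[ℝ] ℝ)) (k : X →L[ℝ] ℝ), k ≠ 0 ∧ StrongFPV A ∧
      IsMaximal (normalCone (halfSpace k)) ∧ dom (normalCone (halfSpace k)) = halfSpace k ∧
      (dom A ∩ interior (halfSpace k)).Nonempty ∧
      IsMonotone (sum A (normalCone (halfSpace k))) ∧
      ¬ IsMaximal (sum A (normalCone (halfSpace k)))

end Pool.Agent.Lib.MPfd6009.AS
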