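import Pool.Agent.Lib.MP_fd6009_an.AS.Spec

/-!
# Spaces containing `c₀` or `ℓ¹` have a dual containing `ℓ¹`: specification
-/

set_option autoImplicit false

open Filter Topology

namespace Pool.Agent.Lib.MPfd6009.AS

universe u

/-- `X` contains an isomorphic copy of `ℓ¹`: a bounded sequence with a lower `ℓ¹` estimate. -/
def ContainsEllOne (X : Type u) [NormedAddCommGroup X] [NormedSpace ℝ X] : Prop :=
  ∃ (x : ℕ → X) (c : ℝ), 0 < c ∧ (∀ n, ‖x n‖ ≤ 1) ∧
    ∀ (s : Finset ℕ) (t : ℕ → ℝ), c * ∑ i ∈ s, |t i| ≤ ‖∑ i ∈ s, t i • x i‖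

/-- `X` contains an isomorphic copy of `c₀`: a sequence equivalent to the unit vectors of `c₀`. -/
def ContainsC0 (X : Type u) [NormedAddCommGroup X] [NormedSpace ℝ X] : Prop :=
  ∃ (x : ℕ → X) (c C : ℝ), 0 < c ∧
    (∀ (s : Finset ℕ) (t : ℕ → ℝ), ∀ j ∈ s, c * |t j| ≤ ‖∑ i ∈ s, t i • x i‖) ∧
    ∀ (s : Finset ℕ) (t : ℕ → ℝ) (b : ℝ), (∀ i ∈ s, |t i| ≤ b) → 0 ≤ b →
      ‖∑ i ∈ s, t i • x i‖ ≤ C * b

/-- Module ECO (90 lines).  PROOF.  The `x i` are linearly independent (lower estimate).  On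
`p = Submodule.span ℝ (Set.range x)` let `φ n` be the `n`-th coordinate
(`(Module.Basis.span hli).coord n`), `|φ n y| ≤ (1/c) ‖y‖` by the lower estimate
(write `y` as a finite sum); extend `c • φ n` to `f n ∈ X*` with norm at most `1`
(`exists_extension_norm_eq`).  `f n (x k) = c` if `n = k`, else `0`.  For `s`, `t` let
`y = ∑ i ∈ s, sign (t i) • x i`: `‖y‖ ≤ C`, `(∑ i ∈ s, t i • f i) y = c * ∑ i ∈ s, |t i|`, so
`(c / C) * ∑ |t i| ≤ ‖∑ t i • f i‖`; `C ≥ c > 0` (`s = {0}`, `t = 1`, `b = 1`). -/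
def SpecECO : Prop :=
  ∀ (X : Type u) [NormedAddCommGroup X] [NormedSpace ℝ X], ContainsC0 X → DualHasEllOne X

/-- Module ELO (90 lines).  PROOF.  The `x i` are linearly independent.  Let `r n k = -1` if
`k.testBit n`, else `1`.  On `p = Submodule.span ℝ (Set.range x)` let `ψ n` be the linear functional with
`ψ n (x k) = r n k` (`(Module.Basis.span hli).constr ℝ (r n)`): `|ψ n y| ≤ ∑ |t k| ≤ (1/c) ‖y‖` for
`y = ∑ t k • x k`; extend `c • ψ n` to `f n ∈ X*` with norm at most `1`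
(`exists_extension_norm_eq`).  For `s`, `t` let `k = ∑ i ∈ s with t i < 0, 2 ^ i`; then
`k.testBit i ↔ t i < 0` for `i ∈ s`, `(∑ i ∈ s, t i • f i) (x k) = c * ∑ i ∈ s, |t i|`, and
`‖x k‖ ≤ 1`.  (For the bits of `k` use `Finset.sum_pow_two` facts, or choose `k` by
`Nat.ofBits` / any enumeration of the finite sets: instead of the bits one may take any surjection
`S : ℕ → Finset ℕ` and `r n k = -1` if `n ∈ S k`, else `1`; this is easier:
`S k = (Encodable.decode k).getD ∅`.) -/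
def SpecELO : Prop :=
  ∀ (X : Type u) [NormedAddCommGroup X] [NormedSpace ℝ X], ContainsEllOne X → DualHasEllOne X

end Pool.Agent.Lib.MPfd6009.AS
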